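import Pool.Agent.Lib.MP_4b815d_gt.Cone

set_option autoImplicit false

open Set Filter Topology
open scoped RealInnerProductSpace

namespace Pool.Agent.Lib.MP_4b815d_gt

section general

variable {M : Type*} [MetricSpace M]

lemma HasAngle.unique {γ σ : ℝ → M} {α β : ℝ} (h : HasAngle γ σ α) (h' : HasAngle γ σ β) : α = β :=
  tendsto_nhds_unique h h'

lemma HasAngle.congr {γ σ γ' σ' : ℝ → M} {α a b : ℝ} (ha : 0 < a) (hb : 0 < b)
    (h : HasAngle γ σ α) (h1 : ∀ t ∈ Icc 0 a, γ t = γ' t) (h2 : ∀ t ∈ Icc 0 b, σ t = σ' t) :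
    HasAngle γ' σ' α := by
  refine Tendsto.congr' ?_ h
  have e1 : ∀ᶠ s : ℝ in 𝓝[>] 0, s ∈ Ioc 0 a := Ioc_mem_nhdsGT ha
  have e2 : ∀ᶠ s : ℝ in 𝓝[>] 0, s ∈ Ioc 0 b := Ioc_mem_nhdsGT hb
  filter_upwards [e1.prod_mk e2] with q hq
  rw [h1 q.1 ⟨hq.1.1.le, hq.1.2⟩, h2 q.2 ⟨hq.2.1.le, hq.2.2⟩]

/-- If the comparison angles are constant near the vertex, they give the angle. -/
lemma hasAngle_of_const {γ σ : ℝ → M} {α a b : ℝ} (ha : 0 < a) (hb : 0 < b)
    (h : ∀ s ∈ Ioc 0 a, ∀ t ∈ Ioc 0 b, compAngle s t (dist (γ s) (σ t)) = α) : HasAngle γ σ α := by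
  refine Tendsto.congr' ?_ tendsto_const_nhds
  have e1 : ∀ᶠ s : ℝ in 𝓝[>] 0, s ∈ Ioc 0 a := Ioc_mem_nhdsGT ha
  have e2 : ∀ᶠ s : ℝ in 𝓝[>] 0, s ∈ Ioc 0 b := Ioc_mem_nhdsGT hb
  filter_upwards [e1.prod_mk e2] with q hq
  exact (h q.1 hq.1 q.2 hq.2).symm

end general

lemma norm_smul_sub_smul_sq {u v : ℂ} (hu : ‖u‖ = 1) (hv : ‖v‖ = 1) (s t : ℝ) :
    ‖s • u - t • v‖ ^ 2 = s ^ 2 + t ^ 2 - 2 * s * t * ⟪u, v⟫ := by
  rw [norm_sub_sq_real, inner_smul_left, inner_smul_right, norm_smul, norm_smul, hu, hv]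
  simp
  ring

lemma norm_smul_add_smul_sq {u v : ℂ} (hu : ‖u‖ = 1) (hv : ‖v‖ = 1) (s t : ℝ) :
    ‖s • u + t • v‖ ^ 2 = s ^ 2 + t ^ 2 + 2 * s * t * ⟪u, v⟫ := by
  rw [norm_add_sq_real, inner_smul_left, inner_smul_right, norm_smul, norm_smul, hu, hv]
  simp
  ring

lemma compAngle_plane {u v : ℂ} (hu : ‖u‖ = 1) (hv : ‖v‖ = 1) {s t : ℝ} (hs : 0 < s) (ht : 0 < t) :
    compAngle s t ‖s • u - t • v‖ = Real.arccos ⟪u, v⟫ := by
  unfold compAngle
  rw [norm_smul_sub_smul_sq hu hv]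
  congr 1
  field_simp
  ring

lemma compAngle_le_of_le {s t d d' : ℝ} (hs : 0 < s) (ht : 0 < t) (hd : 0 ≤ d) (hdd : d ≤ d') :
    compAngle s t d ≤ compAngle s t d' := by
  unfold compAngle
  apply Real.arccos_le_arccos
  have : 0 < 2 * s * t := by positivity
  apply div_le_div_of_nonneg_right _ this.le
  have := pow_le_pow_left₀ hd hdd 2
  linarith

/-- Away from the apex, angles are Euclidean. -/
lemma hasAngle_regular {z u v : ℂ} (hz : z ≠ 0) (hu : ‖u‖ = 1) (hv : ‖v‖ = 1) :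
    HasAngle (fun s : ℝ => mk (z + s • u)) (fun t : ℝ => mk (z + t • v)) (Real.arccos ⟪u, v⟫) := by
  have hz' : 0 < ‖z‖ := norm_pos_iff.2 hz
  refine hasAngle_of_const (a := ‖z‖ / 2) (b := ‖z‖ / 2) (by positivity) (by positivity) ?_
  intro s hs t ht
  have h1 : ‖z + s • u - (z + t • v)‖ ≤ ‖z + s • u + (z + t • v)‖ := by
    have e1 : z + s • u - (z + t • v) = s • u - t • v := by module
    have e2 : ‖s • u - t • v‖ ≤ s + t := by
      refine (norm_sub_le _ _).trans ?_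
      rw [norm_smul, norm_smul, hu, hv, Real.norm_eq_abs, Real.norm_eq_abs, abs_of_pos hs.1, abs_of_pos ht.1]
      linarith
    have e3 : 2 * ‖z‖ - (s + t) ≤ ‖z + s • u + (z + t • v)‖ := by
      have e4 : ‖(2 : ℝ) • z‖ = 2 * ‖z‖ := by rw [norm_smul]; simp
      have e5 : (2 : ℝ) • z = (z + s • u + (z + t • v)) - (s • u + t • v) := by module
      have e6 : ‖s • u + t • v‖ ≤ s + t := by
        refine (norm_add_le _ _).trans ?_
        rw [norm_smul, norm_smul, hu, hv, Real.norm_eq_abs, Real.norm_eq_abs, abs_of_pos hs.1, abs_of_pos ht.1]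
        linarith
      have e7 := norm_sub_le (z + s • u + (z + t • v)) (s • u + t • v)
      rw [← e5, e4] at e7
      linarith
    rw [e1]
    linarith [hs.2, ht.2]
  rw [dist_mk, min_eq_left h1]
  have e1 : z + s • u - (z + t • v) = s • u - t • v := by module
  rw [e1, compAngle_plane hu hv hs.1 ht.1]

lemma compAngle_apex {u v : ℂ} (hu : ‖u‖ = 1) (hv : ‖v‖ = 1) {s t : ℝ} (hs : 0 < s) (ht : 0 < t) :
    compAngle s t (dist (mk (s • u)) (mk (t • v))) = Real.arccos |⟪u, v⟫| := by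
  rw [dist_mk]
  have e1 := norm_smul_sub_smul_sq hu hv s t
  have e2 := norm_smul_add_smul_sq hu hv s t
  have hst : 0 < s * t := mul_pos hs ht
  unfold compAngle
  congr 1
  rcases le_total 0 ⟪u, v⟫ with h | h
  · have : ‖s • u - t • v‖ ≤ ‖s • u + t • v‖ := by
      rw [← sq_le_sq₀ (norm_nonneg _) (norm_nonneg _), e1, e2]
      nlinarith [mul_nonneg hst.le h]
    rw [min_eq_left this, e1, abs_of_nonneg h]
    field_simp
    ring
  · have : ‖s • u + t • v‖ ≤ ‖s • u - t • v‖ := by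
      rw [← sq_le_sq₀ (norm_nonneg _) (norm_nonneg _), e1, e2]
      nlinarith [mul_nonneg hst.le (neg_nonneg.2 h)]
    rw [min_eq_right this, e2, abs_of_nonpos h]
    field_simp
    ring

/-- Angles at the apex. -/
lemma hasAngle_apex {u v : ℂ} (hu : ‖u‖ = 1) (hv : ‖v‖ = 1) :
    HasAngle (fun s : ℝ => mk ((0 : ℂ) + s • u)) (fun t : ℝ => mk ((0 : ℂ) + t • v)) (Real.arccos |⟪u, v⟫|) := by
  refine hasAngle_of_const (a := 1) (b := 1) one_pos one_pos ?_
  intro s hs t ht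
  rw [zero_add, zero_add]
  exact compAngle_apex hu hv hs.1 ht.1

instance : ProperSpace Cone where
  isCompact_closedBall p r := by
    obtain ⟨z, rfl⟩ := mk_surj p
    have h1 : Metric.closedBall (mk z) r ⊆ mk '' Metric.closedBall z r := by
      intro q hq
      obtain ⟨w, hw, hzw⟩ := exists_lift z q
      refine ⟨w, ?_, hw⟩
      rw [Metric.mem_closedBall, dist_comm, dist_eq_norm, hzw, dist_comm]
      exact hq
    exact ((isCompact_closedBall z r).image continuous_mk).of_isClosed_subset Metric.isClosed_closedBall h1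

lemma mem_interior_ne_zero {z u : ℂ} {ℓ t : ℝ} (hu : ‖u‖ = 1) (hd : dist (mk z) (mk (z + ℓ • u)) = ℓ)
    (ht : t ∈ Ioo 0 ℓ) : z + t • u ≠ 0 := by
  intro h
  have h1 : z = -(t • u) := eq_neg_of_add_eq_zero_left h
  have h2 : ‖z + (z + ℓ • u)‖ = |ℓ - 2 * t| := by
    have : z + (z + ℓ • u) = (ℓ - 2 * t) • u := by rw [h1]; module
    rw [this, norm_smul, hu, mul_one, Real.norm_eq_abs]
  have h3 := dist_mk_le' z (z + ℓ • u)
  rw [hd, h2] at h3
  have h4 : |ℓ - 2 * t| < ℓ := by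
    rw [abs_lt]; constructor <;> linarith [ht.1, ht.2]
  linarith

/-- The cone is an Alexandrov space of nonnegative curvature. -/
theorem cbbZero_cone : CBBZero Cone where
  complete := inferInstance
  geodesic := exists_joins
  angle_ge := by
    intro p x y hpx hpy γ σ hγ hσ
    obtain ⟨z, rfl⟩ := mk_surj p
    obtain ⟨u, hu, hγu⟩ := joins_char hγ hpx
    obtain ⟨v, hv, hσv⟩ := joins_char hσ hpy
    have ha : 0 < dist (mk z) x := dist_pos.2 hpx
    have hb : 0 < dist (mk z) y := dist_pos.2 hpy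
    have hx : x = mk (z + dist (mk z) x • u) := by
      rw [← hγu _ ⟨ha.le, le_rfl⟩]; exact hγ.2.1.symm
    have hy : y = mk (z + dist (mk z) y • v) := by
      rw [← hσv _ ⟨hb.le, le_rfl⟩]; exact hσ.2.1.symm
    by_cases hz : z = 0
    · subst hz
      refine ⟨Real.arccos |⟪u, v⟫|, ?_, ?_⟩
      · exact (hasAngle_apex hu hv).congr ha hb (fun t ht => (hγu t ht).symm) (fun t ht => (hσv t ht).symm)
      · have h1 : dist x y = dist (mk (dist (mk 0) x • u)) (mk (dist (mk 0) y • v)) := by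
          conv_lhs => rw [hx, hy]
          rw [zero_add, zero_add]
        rw [h1, compAngle_apex hu hv ha hb]
    · refine ⟨Real.arccos ⟪u, v⟫, ?_, ?_⟩
      · exact (hasAngle_regular hz hu hv).congr ha hb (fun t ht => (hγu t ht).symm) (fun t ht => (hσv t ht).symm)
      · rw [← compAngle_plane hu hv ha hb]
        apply compAngle_le_of_le ha hb dist_nonneg
        have h1 := dist_mk_le (z + dist (mk z) x • u) (z + dist (mk z) y • v)
        rw [← hx, ← hy] at h1
        refine h1.trans (le_of_eq ?_)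
        congr 1
        module
  adjacent := by
    intro x y γ hγ t ht p hp σ hσ α β hα hβ
    obtain ⟨z, rfl⟩ := mk_surj x
    have hxy : mk z ≠ y := dist_pos.1 (ht.1.trans ht.2)
    obtain ⟨u, hu, hγu⟩ := joins_char hγ hxy
    set ℓ := dist (mk z) y with hℓ
    have hpos : 0 < ℓ := dist_pos.2 hxy
    have hy : mk (z + ℓ • u) = y := by
      rw [← hγu ℓ ⟨hpos.le, le_rfl⟩]; exact hγ.2.1
    have hd : dist (mk z) (mk (z + ℓ • u)) = ℓ := by rw [hy]
    have hne := mem_interior_ne_zero hu hd ht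
    have htγ : γ t = mk (z + t • u) := hγu t ⟨ht.1.le, ht.2.le⟩
    rw [htγ] at hσ hp
    obtain ⟨v, hv, hσv⟩ := joins_char hσ hp
    have hb : 0 < dist (mk (z + t • u)) p := dist_pos.2 hp
    have h1 : HasAngle σ (fun s => γ (t + s)) (Real.arccos ⟪v, u⟫) := by
      refine (hasAngle_regular hne hv hu).congr (b := ℓ - t) hb (by linarith [ht.2]) (fun s hs => (hσv s hs).symm) ?_
      intro s hs
      rw [hγu (t + s) ⟨by linarith [ht.1, hs.1], by linarith [hs.2]⟩]
      congr 1; module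
    have hnu : ‖-u‖ = 1 := by rw [norm_neg, hu]
    have h2 : HasAngle σ (fun s => γ (t - s)) (Real.arccos ⟪v, -u⟫) := by
      refine (hasAngle_regular hne hv hnu).congr (b := t) hb ht.1 (fun s hs => (hσv s hs).symm) ?_
      intro s hs
      rw [hγu (t - s) ⟨by linarith [hs.2], by linarith [hs.1, ht.2]⟩]
      congr 1; module
    rw [hα.unique h2, hβ.unique h1, inner_neg_right, Real.arccos_neg]
    ring

end Pool.Agent.Lib.MP_4b815d_gt
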