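import Pool.Agent.Lib.MP_4b815d_gt.Disk

set_option autoImplicit false

open Set Filter Topology
open scoped RealInnerProductSpace

namespace Pool.Agent.Lib.MP_4b815d_gt

/-- Unit complex numbers. -/
noncomputable def E (x : ℝ) : ℂ := Complex.exp ((x : ℂ) * Complex.I)

lemma norm_E (x : ℝ) : ‖E x‖ = 1 := Complex.norm_exp_ofReal_mul_I x

lemma E_re (x : ℝ) : (E x).re = Real.cos x := Complex.exp_ofReal_mul_I_re x
lemma E_im (x : ℝ) : (E x).im = Real.sin x := Complex.exp_ofReal_mul_I_im x

lemma continuous_E : Continuous E := by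
  unfold E
  fun_prop

lemma E_add_pi (x : ℝ) : E (x + Real.pi) = -E x := by
  apply Complex.ext
  · rw [Complex.neg_re, E_re, E_re, Real.cos_add_pi]
  · rw [Complex.neg_im, E_im, E_im, Real.sin_add_pi]

lemma inner_E (x y : ℝ) : ⟪E x, E y⟫ = Real.cos (x - y) := by
  rw [Complex.inner, Complex.mul_re, Complex.conj_re, Complex.conj_im, E_re, E_re, E_im, E_im, Real.cos_sub]
  ring

lemma E_sub_E (a b : ℝ) : E b - E a = (2 * Real.sin ((b - a) / 2)) • E ((a + b) / 2 + Real.pi / 2) := by
  apply Complex.ext
  · rw [Complex.sub_re, Complex.real_smul, Complex.re_ofReal_mul, E_re, E_re, E_re, Real.cos_add_pi_div_two,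
      Real.cos_sub_cos, add_comm b a]
    ring
  · rw [Complex.sub_im, Complex.real_smul, Complex.im_ofReal_mul, E_im, E_im, E_im, Real.sin_add_pi_div_two,
      Real.sin_sub_sin, add_comm b a]

lemma norm_E_sub_E (a b : ℝ) : ‖E b - E a‖ = 2 * |Real.sin ((b - a) / 2)| := by
  rw [E_sub_E, norm_smul, norm_E, mul_one, Real.norm_eq_abs, abs_mul, abs_two]

/-- The boundary curve. -/
noncomputable def bd (lam : ℝ) (s : ℝ) : Cone := mk (lam⁻¹ • E (lam * s))

section

variable {lam : ℝ} (hlam : 0 < lam)

include hlam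

lemma dist_bd_le (s t : ℝ) : dist (bd lam s) (bd lam t) ≤ |s - t| := by
  refine (dist_mk_le _ _).trans ?_
  rw [← smul_sub, norm_smul, norm_E_sub_E, Real.norm_eq_abs, abs_of_pos (inv_pos.2 hlam)]
  have h1 : |Real.sin ((lam * s - lam * t) / 2)| ≤ |(lam * s - lam * t) / 2| := Real.abs_sin_le_abs
  have h2 : |(lam * s - lam * t) / 2| = lam * |s - t| / 2 := by
    rw [← mul_sub, abs_div, abs_mul, abs_of_pos hlam, abs_two]
  rw [h2] at h1
  calc lam⁻¹ * (2 * |Real.sin ((lam * s - lam * t) / 2)|) ≤ lam⁻¹ * (2 * (lam * |s - t| / 2)) := by gcongr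
    _ = |s - t| := by field_simp

lemma inner_bd_nonneg {a b : ℝ} (h : |a - b| ≤ Real.pi / 2) : 0 ≤ ⟪lam⁻¹ • E a, lam⁻¹ • E b⟫ := by
  rw [inner_smul_left, inner_smul_right, inner_E]
  have : 0 ≤ Real.cos (a - b) := Real.cos_nonneg_of_mem_Icc (by rw [abs_le] at h; exact ⟨by linarith, by linarith⟩)
  have h2 : 0 < lam⁻¹ := inv_pos.2 hlam
  simp only [conj_trivial]
  positivity

lemma dist_bd {s t : ℝ} (hst : s ≤ t) (h : lam * (t - s) ≤ Real.pi / 2) :
    dist (bd lam s) (bd lam t) = lam⁻¹ * (2 * Real.sin (lam * (t - s) / 2)) := by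
  have h0 : 0 ≤ lam * (t - s) := mul_nonneg hlam.le (by linarith)
  have h1 : |lam * s - lam * t| ≤ Real.pi / 2 := by
    rw [← mul_sub, abs_mul, abs_of_pos hlam, abs_sub_comm, abs_of_nonneg (by linarith : 0 ≤ t - s)]
    exact h
  rw [bd, bd, dist_mk_of_inner (inner_bd_nonneg hlam h1), norm_sub_rev, ← smul_sub, norm_smul, norm_E_sub_E,
    Real.norm_eq_abs, abs_of_pos (inv_pos.2 hlam), ← mul_sub, abs_of_nonneg]
  apply Real.sin_nonneg_of_nonneg_of_le_pi
  · positivity
  · linarith [Real.pi_pos]

lemma continuous_bd : Continuous (bd lam) := by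
  have h1 : Continuous fun s : ℝ => E (lam * s) := continuous_E.comp (continuous_const.mul continuous_id)
  have h2 : Continuous fun s : ℝ => lam⁻¹ • E (lam * s) := h1.const_smul lam⁻¹
  exact continuous_mk.comp h2

lemma bd_periodic (s : ℝ) : bd lam (s + Real.pi / lam) = bd lam s := by
  have h1 : lam * (s + Real.pi / lam) = lam * s + Real.pi := by field_simp
  rw [bd, bd, h1, E_add_pi, smul_neg, mk_neg]

lemma eq_of_E_eq {a b : ℝ} (h : E a = E b) : ∃ n : ℤ, a = b + n * (2 * Real.pi) := by
  unfold E at h
  rw [Complex.exp_eq_exp_iff_exists_int] at h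
  obtain ⟨n, hn⟩ := h
  refine ⟨n, ?_⟩
  have h2 : (a : ℂ) = b + n * (2 * Real.pi) := by
    have hI : Complex.I ≠ 0 := Complex.I_ne_zero
    have : (a : ℂ) * Complex.I = (b + n * (2 * Real.pi)) * Complex.I := by rw [hn]; ring
    exact mul_right_cancel₀ hI this
  exact_mod_cast h2

lemma bd_injOn : InjOn (bd lam) (Ico 0 (Real.pi / lam)) := by
  intro s hs t ht h
  have hpi := Real.pi_pos
  have hs2 : lam * s < Real.pi := by
    have := mul_lt_mul_of_pos_left hs.2 hlam
    rwa [mul_div_cancel₀ _ hlam.ne'] at this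
  have ht2 : lam * t < Real.pi := by
    have := mul_lt_mul_of_pos_left ht.2 hlam
    rwa [mul_div_cancel₀ _ hlam.ne'] at this
  have hs1 : 0 ≤ lam * s := mul_nonneg hlam.le hs.1
  have ht1 : 0 ≤ lam * t := mul_nonneg hlam.le ht.1
  have hne : (lam⁻¹ : ℝ) ≠ 0 := (inv_pos.2 hlam).ne'
  have key : lam * s = lam * t := by
    rcases (mk_eq_iff _ _).1 h with h1 | h1
    · have h2 : E (lam * s) = E (lam * t) := smul_right_injective ℂ hne h1
      obtain ⟨n, hn⟩ := eq_of_E_eq hlam h2
      have hn0 : n = 0 := by
        have h3 : (n : ℝ) * (2 * Real.pi) < 1 * (2 * Real.pi) := by linarith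
        have h4 : (-1 : ℝ) * (2 * Real.pi) < (n : ℝ) * (2 * Real.pi) := by linarith
        have h5 : (n : ℝ) < 1 := lt_of_mul_lt_mul_right h3 (by positivity)
        have h6 : (-1 : ℝ) < n := lt_of_mul_lt_mul_right h4 (by positivity)
        have h7 : n < 1 := by exact_mod_cast h5
        have h8 : -1 < n := by exact_mod_cast h6
        omega
      rw [hn, hn0]; simp
    · rw [← smul_neg, ← E_add_pi] at h1
      have h2 : E (lam * s) = E (lam * t + Real.pi) := smul_right_injective ℂ hne h1
      obtain ⟨n, hn⟩ := eq_of_E_eq hlam h2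
      exfalso
      have h3 : (n : ℝ) * (2 * Real.pi) < 0 * (2 * Real.pi) := by linarith
      have h4 : (-1 : ℝ) * (2 * Real.pi) < (n : ℝ) * (2 * Real.pi) := by linarith
      have h5 : (n : ℝ) < 0 := lt_of_mul_lt_mul_right h3 (by positivity)
      have h6 : (-1 : ℝ) < n := lt_of_mul_lt_mul_right h4 (by positivity)
      have h7 : n < 0 := by exact_mod_cast h5
      have h8 : -1 < n := by exact_mod_cast h6
      omega
  exact mul_left_cancel₀ hlam.ne' key

lemma range_bd : range (bd lam) = frontier (disk lam) := by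
  ext p
  constructor
  · rintro ⟨s, rfl⟩
    rw [bd, mem_frontier_disk hlam, norm_smul, norm_E, mul_one, Real.norm_eq_abs, abs_of_pos (inv_pos.2 hlam)]
  · obtain ⟨z, rfl⟩ := mk_surj p
    intro h
    rw [mem_frontier_disk hlam] at h
    refine ⟨Complex.arg z / lam, ?_⟩
    rw [bd, mul_div_cancel₀ _ hlam.ne']
    congr 1
    have := Complex.norm_mul_exp_arg_mul_I z
    rw [h] at this
    rw [E, Complex.real_smul]
    exact this

lemma unit_speed_bd : HasUnitSpeedOn (bd lam) univ := by
  intro s _ t _
  rw [univ_inter, NNReal.coe_one, one_mul]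
  rcases lt_or_ge t s with hts | hst
  · rw [Icc_eq_empty (not_le.2 hts), ENNReal.ofReal_eq_zero.2 (by linarith)]
    exact eVariationOn.subsingleton _ subsingleton_empty
  apply le_antisymm
  · have hl : LipschitzOnWith 1 (bd lam) univ := by
      refine (LipschitzWith.of_dist_le_mul fun x y => ?_).lipschitzOnWith
      rw [NNReal.coe_one, one_mul, Real.dist_eq]
      exact dist_bd_le hlam x y
    have h1 := hl.comp_eVariationOn_le (g := (id : ℝ → ℝ)) (s := Icc s t) (mapsTo_univ _ _)
    have h2 : eVariationOn (id : ℝ → ℝ) (Icc s t) ≤ ENNReal.ofReal (t - s) := by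
      have := (monotone_id (α := ℝ)).monotoneOn (Icc s t)
      have h3 := this.eVariationOn_le (left_mem_Icc.2 hst) (right_mem_Icc.2 hst)
      rw [inter_self] at h3
      exact h3
    rw [Function.comp_id, ENNReal.coe_one, one_mul] at h1
    exact h1.trans h2
  · -- approximate by inscribed polygons
    set δ := t - s with hδ
    have hδ0 : 0 ≤ δ := by linarith
    have hlow : ∀ᶠ N : ℕ in atTop, ENNReal.ofReal (N * (lam⁻¹ * (2 * Real.sin (lam * (δ / N) / 2)))) ≤
        eVariationOn (bd lam) (Icc s t) := by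
      have hev : ∀ᶠ N : ℕ in atTop, lam * (δ / N) ≤ Real.pi / 2 := by
        have h1 : Tendsto (fun N : ℕ => lam * (δ / N)) atTop (𝓝 (lam * 0)) :=
          (tendsto_const_div_atTop_nhds_zero_nat δ).const_mul lam
        rw [mul_zero] at h1
        exact (h1.eventually (gt_mem_nhds (by positivity : (0 : ℝ) < Real.pi / 2))).mono fun _ h => le_of_lt h
      filter_upwards [hev, eventually_gt_atTop 0] with N hN hN0
      have hNpos : (0 : ℝ) < N := by exact_mod_cast hN0
      let u : ℕ → ℝ := fun i => s + δ / N * (min i N : ℕ)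
      have hu : Monotone u := by
        intro i j hij
        have : ((min i N : ℕ) : ℝ) ≤ (min j N : ℕ) := by exact_mod_cast min_le_min_right N hij
        have h2 : 0 ≤ δ / N := by positivity
        simp only [u]
        nlinarith [mul_le_mul_of_nonneg_left this h2]
      have us : ∀ i, u i ∈ Icc s t := by
        intro i
        have h1 : ((min i N : ℕ) : ℝ) ≤ N := by exact_mod_cast min_le_right i N
        have h2 : 0 ≤ δ / N := by positivity
        have h3 : δ / N * (min i N : ℕ) ≤ δ / N * N := mul_le_mul_of_nonneg_left h1 h2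
        rw [div_mul_cancel₀ _ hNpos.ne'] at h3
        simp only [u]
        constructor
        · have : 0 ≤ δ / N * (min i N : ℕ) := by positivity
          linarith
        · linarith
      have h1 := eVariationOn.sum_le (f := bd lam) (s := Icc s t) (n := N) hu us
      refine le_trans (le_of_eq ?_) h1
      have h2 : ∀ i ∈ Finset.range N, edist (bd lam (u (i + 1))) (bd lam (u i)) =
          ENNReal.ofReal (lam⁻¹ * (2 * Real.sin (lam * (δ / N) / 2))) := by
        intro i hi
        rw [Finset.mem_range] at hi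
        have e1 : u i = s + δ / N * i := by simp only [u]; rw [min_eq_left (by omega)]
        have e2 : u (i + 1) = s + δ / N * (i + 1) := by
          simp only [u]; rw [min_eq_left (by omega)]; push_cast; ring
        have e3 : u (i + 1) - u i = δ / N := by rw [e1, e2]; ring
        have e4 : u i ≤ u (i + 1) := hu (Nat.le_succ i)
        rw [edist_comm, edist_dist, dist_bd hlam e4 (by rw [e3]; exact hN), e3]
      rw [Finset.sum_congr rfl h2, Finset.sum_const, Finset.card_range, nsmul_eq_mul, ENNReal.ofReal_mul hNpos.le,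
        ENNReal.ofReal_natCast]
    have hlim : Tendsto (fun N : ℕ => ENNReal.ofReal (N * (lam⁻¹ * (2 * Real.sin (lam * (δ / N) / 2))))) atTop
        (𝓝 (ENNReal.ofReal δ)) := by
      apply ENNReal.tendsto_ofReal
      by_cases hδz : δ = 0
      · simp [hδz]
      have hx : Tendsto (fun N : ℕ => lam * (δ / N) / 2) atTop (𝓝[≠] 0) := by
        rw [tendsto_nhdsWithin_iff]
        constructor
        · have h1 : Tendsto (fun N : ℕ => lam * (δ / N) / 2) atTop (𝓝 (lam * 0 / 2)) :=
            ((tendsto_const_div_atTop_nhds_zero_nat δ).const_mul lam).div_const 2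
          simpa using h1
        · filter_upwards [eventually_gt_atTop 0] with N hN0
          have hNpos : (0 : ℝ) < N := by exact_mod_cast hN0
          have : lam * (δ / N) / 2 ≠ 0 := by
            have := hlam.ne'
            positivity
          exact this
      have hs : Tendsto (fun x : ℝ => Real.sin x / x) (𝓝[≠] 0) (𝓝 1) := by
        have := (Real.hasDerivAt_sin 0).tendsto_slope_zero
        simp only [Real.cos_zero, zero_add, Real.sin_zero, sub_zero, smul_eq_mul] at this
        refine this.congr fun x => ?_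
        rw [div_eq_inv_mul]
      have h2 := (hs.comp hx).const_mul δ
      rw [mul_one] at h2
      refine h2.congr' ?_
      filter_upwards [eventually_gt_atTop 0] with N hN0
      have hNpos : (0 : ℝ) < N := by exact_mod_cast hN0
      simp only [Function.comp]
      field_simp
    exact le_of_tendsto hlim hlow

theorem boundaryParam_disk : BoundaryParam (disk lam) (Real.pi / lam) (bd lam) where
  pos := div_pos Real.pi_pos hlam
  continuous := continuous_bd hlam
  periodic := bd_periodic hlam
  injective := bd_injOn hlam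
  range := range_bd hlam
  unit_speed := unit_speed_bd hlam

end

end Pool.Agent.Lib.MP_4b815d_gt
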