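import Pool.Agent.Lib.MP_4b815d_gt.Defs

set_option autoImplicit false

open Set Filter Topology
open scoped RealInnerProductSpace

namespace Pool.Agent.Lib.MP_4b815d_gt

/-- The equivalence relation identifying `z` and `-z`. -/
def coneSetoid : Setoid ℂ where
  r z w := z = w ∨ z = -w
  iseqv :=
    { refl := fun z => Or.inl rfl
      symm := by
        rintro z w (h | h)
        · exact Or.inl h.symm
        · right; rw [h, neg_neg]
      trans := by
        rintro z w v (h | h) (h' | h')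
        · left; rw [h, h']
        · right; rw [h, h']
        · right; rw [h, h']
        · left; rw [h, h', neg_neg] }

/-- The flat cone of total angle `π`: the quotient of the Euclidean plane by the rotation by `π`. -/
def Cone : Type := Quotient coneSetoid

/-- The projection of the plane onto the cone. -/
def mk (z : ℂ) : Cone := Quotient.mk coneSetoid z

lemma mk_surj (p : Cone) : ∃ z, mk z = p := Quotient.exists_rep p

lemma mk_neg (z : ℂ) : mk (-z) = mk z := Quotient.sound (Or.inr rfl)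

lemma mk_eq_iff (z w : ℂ) : mk z = mk w ↔ z = w ∨ z = -w :=
  ⟨fun h => Quotient.exact h, fun h => Quotient.sound h⟩

/-- The distance on the cone. -/
noncomputable def coneDist : Cone → Cone → ℝ :=
  Quotient.lift₂ (fun z w : ℂ => min ‖z - w‖ ‖z + w‖) (by
    have h1 : ∀ z w : ℂ, min ‖z - -w‖ ‖z + -w‖ = min ‖z - w‖ ‖z + w‖ := by
      intro z w
      rw [sub_neg_eq_add, ← sub_eq_add_neg, min_comm]
    have h2 : ∀ z w : ℂ, min ‖-z - w‖ ‖-z + w‖ = min ‖z - w‖ ‖z + w‖ := by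
      intro z w
      have e1 : ‖-z - w‖ = ‖z + w‖ := by rw [← norm_neg]; congr 1; ring
      have e2 : ‖-z + w‖ = ‖z - w‖ := by rw [← norm_neg]; congr 1; ring
      rw [e1, e2, min_comm]
    rintro z w z' w' (rfl | rfl) (rfl | rfl)
    · rfl
    · exact h1 _ _
    · exact h2 _ _
    · rw [h1, h2])

noncomputable instance : MetricSpace Cone where
  dist := coneDist
  dist_self p := by
    obtain ⟨z, rfl⟩ := mk_surj p
    change min ‖z - z‖ ‖z + z‖ = 0
    simp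
  dist_comm p q := by
    obtain ⟨z, rfl⟩ := mk_surj p
    obtain ⟨w, rfl⟩ := mk_surj q
    change min ‖z - w‖ ‖z + w‖ = min ‖w - z‖ ‖w + z‖
    rw [norm_sub_rev, add_comm]
  dist_triangle p q r := by
    obtain ⟨z, rfl⟩ := mk_surj p
    obtain ⟨w, rfl⟩ := mk_surj q
    obtain ⟨v, rfl⟩ := mk_surj r
    change min ‖z - v‖ ‖z + v‖ ≤ min ‖z - w‖ ‖z + w‖ + min ‖w - v‖ ‖w + v‖
    rcases min_choice ‖z - w‖ ‖z + w‖ with h1 | h1 <;> rcases min_choice ‖w - v‖ ‖w + v‖ with h2 | h2 <;>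
      rw [h1, h2]
    · refine (min_le_left _ _).trans ?_
      calc ‖z - v‖ = ‖(z - w) + (w - v)‖ := by congr 1; ring
        _ ≤ _ := norm_add_le _ _
    · refine (min_le_right _ _).trans ?_
      calc ‖z + v‖ = ‖(z - w) + (w + v)‖ := by congr 1; ring
        _ ≤ _ := norm_add_le _ _
    · refine (min_le_right _ _).trans ?_
      calc ‖z + v‖ = ‖(z + w) - (w - v)‖ := by congr 1; ring
        _ ≤ _ := norm_sub_le _ _
    · refine (min_le_left _ _).trans ?_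
      calc ‖z - v‖ = ‖(z + w) - (w + v)‖ := by congr 1; ring
        _ ≤ _ := norm_sub_le _ _
  eq_of_dist_eq_zero {p q} h := by
    obtain ⟨z, rfl⟩ := mk_surj p
    obtain ⟨w, rfl⟩ := mk_surj q
    have h : min ‖z - w‖ ‖z + w‖ = 0 := h
    rw [mk_eq_iff]
    rcases min_choice ‖z - w‖ ‖z + w‖ with h1 | h1 <;> rw [h1] at h
    · left; exact sub_eq_zero.1 (norm_eq_zero.1 h)
    · right; exact eq_neg_of_add_eq_zero_left (norm_eq_zero.1 h)

lemma dist_mk (z w : ℂ) : dist (mk z) (mk w) = min ‖z - w‖ ‖z + w‖ := rfl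

lemma dist_mk_le (z w : ℂ) : dist (mk z) (mk w) ≤ ‖z - w‖ := min_le_left _ _

lemma dist_mk_le' (z w : ℂ) : dist (mk z) (mk w) ≤ ‖z + w‖ := min_le_right _ _

lemma norm_sub_le_norm_add_iff (z w : ℂ) : ‖z - w‖ ≤ ‖z + w‖ ↔ 0 ≤ ⟪z, w⟫ := by
  have h1 := norm_sub_sq_real z w
  have h2 := norm_add_sq_real z w
  rw [← sq_le_sq₀ (norm_nonneg _) (norm_nonneg _), h1, h2]
  constructor <;> intro h <;> linarith

lemma dist_mk_of_inner {z w : ℂ} (h : 0 ≤ ⟪z, w⟫) : dist (mk z) (mk w) = ‖z - w‖ := by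
  rw [dist_mk]
  exact min_eq_left ((norm_sub_le_norm_add_iff z w).2 h)

lemma exists_lift (z : ℂ) (q : Cone) : ∃ w, mk w = q ∧ ‖z - w‖ = dist (mk z) q := by
  obtain ⟨w, rfl⟩ := mk_surj q
  rcases min_choice ‖z - w‖ ‖z + w‖ with h | h
  · exact ⟨w, rfl, by rw [dist_mk, h]⟩
  · exact ⟨-w, mk_neg w, by rw [dist_mk, h, sub_neg_eq_add]⟩

lemma lipschitz_mk : LipschitzWith 1 mk := by
  refine LipschitzWith.of_dist_le_mul fun z w => ?_
  rw [NNReal.coe_one, one_mul, dist_eq_norm]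
  exact dist_mk_le z w

lemma continuous_mk : Continuous mk := lipschitz_mk.continuous

/-- Projections of segments which realise the distance of their end points are shortest paths. -/
lemma joins_line {z u : ℂ} {ℓ : ℝ} (hℓ : 0 ≤ ℓ) (hu : ‖u‖ = 1) (hd : dist (mk z) (mk (z + ℓ • u)) = ℓ) :
    Joins (fun t : ℝ => mk (z + t • u)) (mk z) (mk (z + ℓ • u)) := by
  have h1 : ∀ s t : ℝ, dist (mk (z + s • u)) (mk (z + t • u)) ≤ |s - t| := by
    intro s t
    refine (dist_mk_le _ _).trans ?_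
    have : z + s • u - (z + t • u) = (s - t) • u := by module
    rw [this, norm_smul, hu, mul_one, Real.norm_eq_abs]
  refine ⟨by simp, by rw [hd], ?_⟩
  rw [hd]
  have key : ∀ s ∈ Icc 0 ℓ, ∀ t ∈ Icc 0 ℓ, s ≤ t → dist (mk (z + s • u)) (mk (z + t • u)) = |s - t| := by
    intro s hs t ht hst
    refine le_antisymm (h1 s t) ?_
    have h2 := h1 0 s
    have h3 := h1 t ℓ
    have h4 := dist_triangle (mk (z + (0 : ℝ) • u)) (mk (z + s • u)) (mk (z + ℓ • u))
    have h5 := dist_triangle (mk (z + s • u)) (mk (z + t • u)) (mk (z + ℓ • u))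
    rw [zero_smul, add_zero, hd] at h4
    rw [zero_smul, add_zero] at h2
    rw [zero_sub, abs_neg, abs_of_nonneg hs.1] at h2
    rw [abs_of_nonpos (by linarith [ht.2] : t - ℓ ≤ 0)] at h3
    rw [abs_of_nonpos (by linarith : s - t ≤ 0)]
    linarith
  intro s hs t ht
  rcases le_total s t with h | h
  · exact key s hs t ht h
  · rw [dist_comm, abs_sub_comm]
    exact key t ht s hs h

lemma exists_joins (p q : Cone) : ∃ γ, Joins γ p q := by
  obtain ⟨z, rfl⟩ := mk_surj p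
  obtain ⟨w, rfl, hw⟩ := exists_lift z q
  by_cases h : dist (mk z) (mk w) = 0
  · have h' := dist_eq_zero.1 h
    refine ⟨fun _ => mk z, rfl, h', ?_⟩
    rw [h]
    intro s hs t ht
    have e1 : s = 0 := le_antisymm hs.2 hs.1
    have e2 : t = 0 := le_antisymm ht.2 ht.1
    simp [e1, e2]
  · set ℓ := dist (mk z) (mk w) with hℓ
    have hpos : 0 < ℓ := lt_of_le_of_ne dist_nonneg (Ne.symm h)
    have hu : ‖(ℓ⁻¹ : ℝ) • (w - z)‖ = 1 := by
      rw [norm_smul, norm_inv, Real.norm_eq_abs, abs_of_pos hpos, norm_sub_rev, hw, inv_mul_cancel₀ h]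
    have he : z + ℓ • ((ℓ⁻¹ : ℝ) • (w - z)) = w := by
      rw [smul_smul, mul_inv_cancel₀ h, one_smul]; ring
    have := joins_line (z := z) hpos.le hu (by rw [he])
    rw [he] at this
    exact ⟨_, this⟩

/-- Equality in the triangle inequality. -/
lemma eq_of_dist_add {z m v : ℂ} {a b : ℝ} (hb : 0 < b) (h1 : ‖z - m‖ = b) (h2 : ‖z - v‖ = a)
    (h3 : ‖v - m‖ = b - a) : v = z + (a / b) • (m - z) := by
  have h := eq_lineMap_of_dist_eq_mul_of_dist_eq_mul (E := ℂ) (PE := ℂ) (x := z) (y := v) (z := m) (r := a / b)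
    (by rw [dist_eq_norm, dist_eq_norm, h1, h2, div_mul_cancel₀ _ hb.ne'])
    (by rw [dist_eq_norm, dist_eq_norm, h1, h3, one_sub_mul, div_mul_cancel₀ _ hb.ne'])
  rw [h, AffineMap.lineMap_apply]
  simp [add_comm]

/-- Shortest paths in the cone are projections of straight segments. -/
lemma joins_char {γ : ℝ → Cone} {z : ℂ} {q : Cone} (h : Joins γ (mk z) q) (hne : mk z ≠ q) :
    ∃ u : ℂ, ‖u‖ = 1 ∧ ∀ t ∈ Icc 0 (dist (mk z) q), γ t = mk (z + t • u) := by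
  obtain ⟨h0, hq, hγ⟩ := h
  set ℓ := dist (mk z) q with hℓ
  have hpos : 0 < ℓ := dist_pos.2 hne
  have hend : ℓ ∈ Icc 0 ℓ := ⟨hpos.le, le_rfl⟩
  have hzero : (0 : ℝ) ∈ Icc 0 ℓ := ⟨le_rfl, hpos.le⟩
  obtain ⟨w, hw, hzw⟩ := exists_lift z q
  rw [← hℓ] at hzw
  have hzw' : ℓ ≤ ‖z + w‖ := by
    rw [hℓ, ← hw]; exact dist_mk_le' z w
  -- dichotomy
  have hdich : ∀ t ∈ Icc 0 ℓ, γ t = mk (z + (t / ℓ) • (w - z)) ∨
      (‖z + w‖ = ℓ ∧ γ t = mk (z + (t / ℓ) • (-w - z))) := by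
    intro t ht
    obtain ⟨v, hv, hzv⟩ := exists_lift z (γ t)
    have h1 : dist (mk z) (γ t) = t := by
      rw [← h0, hγ 0 hzero t ht, zero_sub, abs_neg, abs_of_nonneg ht.1]
    rw [h1] at hzv
    have h2 : dist (γ t) (γ ℓ) = ℓ - t := by
      rw [hγ t ht ℓ hend, abs_sub_comm, abs_of_nonneg (by linarith [ht.2])]
    rw [hq, ← hw, ← hv, dist_mk] at h2
    rcases min_choice ‖v - w‖ ‖v + w‖ with h3 | h3 <;> rw [h3] at h2
    · left
      rw [← hv, eq_of_dist_add hpos hzw hzv h2]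
    · right
      have h4 : ‖z + w‖ = ℓ := by
        refine le_antisymm ?_ hzw'
        calc ‖z + w‖ = ‖(z - v) + (v + w)‖ := by congr 1; ring
          _ ≤ ‖z - v‖ + ‖v + w‖ := norm_add_le _ _
          _ = ℓ := by rw [hzv, h2]; ring
      refine ⟨h4, ?_⟩
      rw [← hv, eq_of_dist_add (m := -w) hpos (by rw [sub_neg_eq_add, h4]) hzv (by rw [sub_neg_eq_add, h2])]
  have final : ∀ w' : ℂ, ‖z - w'‖ = ℓ → (∀ t ∈ Icc 0 ℓ, γ t = mk (z + (t / ℓ) • (w' - z))) →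
      ∃ u : ℂ, ‖u‖ = 1 ∧ ∀ t ∈ Icc 0 ℓ, γ t = mk (z + t • u) := by
    intro w' hw' hall
    refine ⟨(ℓ⁻¹ : ℝ) • (w' - z), ?_, ?_⟩
    · rw [norm_smul, norm_inv, Real.norm_eq_abs, abs_of_pos hpos, norm_sub_rev, hw', inv_mul_cancel₀ hpos.ne']
    · intro t ht
      rw [hall t ht, smul_smul, div_eq_mul_inv]
  by_cases hA : ∀ t ∈ Icc 0 ℓ, γ t = mk (z + (t / ℓ) • (w - z))
  · exact final w hzw hA
  push Not at hA
  obtain ⟨t₁, ht₁, hA₁⟩ := hA
  rcases hdich t₁ ht₁ with h1 | ⟨hzw2, hB₁⟩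
  · exact absurd h1 hA₁
  refine final (-w) (by rw [sub_neg_eq_add, hzw2]) ?_
  intro t₀ ht₀
  by_contra hB₀
  have hA₀ : γ t₀ = mk (z + (t₀ / ℓ) • (w - z)) := by
    rcases hdich t₀ ht₀ with h1 | ⟨_, h1⟩
    · exact h1
    · exact absurd h1 hB₀
  -- parameters
  set s := t₀ / ℓ with hs
  set s' := t₁ / ℓ with hs'
  have hs01 : 0 ≤ s ∧ s ≤ 1 := ⟨div_nonneg ht₀.1 hpos.le, (div_le_one hpos).2 ht₀.2⟩
  have hs01' : 0 ≤ s' ∧ s' ≤ 1 := ⟨div_nonneg ht₁.1 hpos.le, (div_le_one hpos).2 ht₁.2⟩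
  have hsne0 : s ≠ 0 := by
    intro h; apply hB₀; rw [hA₀, h]; simp
  have hsne1 : s ≠ 1 := by
    intro h; apply hB₀; rw [hA₀, h, one_smul, one_smul]
    have e1 : z + (w - z) = w := by ring
    have e2 : z + (-w - z) = -w := by ring
    rw [e1, e2, mk_neg]
  have hsne0' : s' ≠ 0 := by
    intro h; apply hA₁; rw [hB₁, h]; simp
  have hsne1' : s' ≠ 1 := by
    intro h; apply hA₁; rw [hB₁, h, one_smul, one_smul]
    have e1 : z + (w - z) = w := by ring
    have e2 : z + (-w - z) = -w := by ring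
    rw [e1, e2, mk_neg]
  have hs0 : 0 < s := lt_of_le_of_ne hs01.1 (Ne.symm hsne0)
  have hs1 : s < 1 := lt_of_le_of_ne hs01.2 hsne1
  have hs0' : 0 < s' := lt_of_le_of_ne hs01'.1 (Ne.symm hsne0')
  have hs1' : s' < 1 := lt_of_le_of_ne hs01'.2 hsne1'
  have hz0 : z ≠ 0 := by
    intro h
    apply hB₀
    rw [hA₀, h]
    have e1 : (0 : ℂ) + s • (w - 0) = s • w := by simp
    have e2 : (0 : ℂ) + s • (-w - 0) = -(s • w) := by simp
    rw [e1, e2, mk_neg]
  have hw0 : w ≠ 0 := by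
    intro h
    apply hB₀
    rw [hA₀, h]
    simp
  have hin : ⟪z, w⟫ = 0 := by
    have e1 := norm_sub_sq_real z w
    have e2 := norm_add_sq_real z w
    rw [hzw] at e1
    rw [hzw2] at e2
    linarith
  have hℓ2 : ℓ ^ 2 = ‖z‖ ^ 2 + ‖w‖ ^ 2 := by
    have e1 := norm_sub_sq_real z w
    rw [hzw, hin] at e1
    linarith
  have hcomb : ∀ a b : ℝ, ‖a • z + b • w‖ ^ 2 = a ^ 2 * ‖z‖ ^ 2 + b ^ 2 * ‖w‖ ^ 2 := by
    intro a b
    rw [norm_add_sq_real, inner_smul_left, inner_smul_right, hin, norm_smul, norm_smul, mul_pow, mul_pow,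
      Real.norm_eq_abs, Real.norm_eq_abs, sq_abs, sq_abs]
    simp
  have hzpos : 0 < ‖z‖ ^ 2 := by positivity
  have hwpos : 0 < ‖w‖ ^ 2 := by positivity
  have hd := hγ t₀ ht₀ t₁ ht₁
  rw [hA₀, hB₁, dist_mk] at hd
  have ht₀s : t₀ = s * ℓ := by rw [hs, div_mul_cancel₀ _ hpos.ne']
  have ht₁s : t₁ = s' * ℓ := by rw [hs', div_mul_cancel₀ _ hpos.ne']
  have hsq : |t₀ - t₁| ^ 2 = (s - s') ^ 2 * ‖z‖ ^ 2 + (s - s') ^ 2 * ‖w‖ ^ 2 := by
    rw [sq_abs, ht₀s, ht₁s, ← sub_mul, mul_pow, hℓ2]; ring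
  rcases min_choice ‖z + s • (w - z) - (z + s' • (-w - z))‖ ‖z + s • (w - z) + (z + s' • (-w - z))‖ with h3 | h3 <;>
    rw [h3] at hd
  · have e1 : z + s • (w - z) - (z + s' • (-w - z)) = (s' - s) • z + (s + s') • w := by module
    rw [e1] at hd
    have e2 := hcomb (s' - s) (s + s')
    rw [hd, hsq] at e2
    nlinarith [mul_pos hs0 hs0', mul_pos (mul_pos hs0 hs0') hwpos]
  · have e1 : z + s • (w - z) + (z + s' • (-w - z)) = (2 - s - s') • z + (s - s') • w := by module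
    rw [e1] at hd
    have e2 := hcomb (2 - s - s') (s - s')
    rw [hd, hsq] at e2
    nlinarith [mul_pos (sub_pos.2 hs1) (sub_pos.2 hs1'), mul_pos (mul_pos (sub_pos.2 hs1) (sub_pos.2 hs1')) hzpos]

end Pool.Agent.Lib.MP_4b815d_gt
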