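import Mathlib

set_option autoImplicit false

open Set Filter Topology

namespace Pool.Agent.Lib.MP_4b815d_gt

section defs

variable {M : Type*} [MetricSpace M]

/-- `γ`, restricted to `[0, dist x y]`, is a shortest path from `x` to `y`, parametrised by length. -/
def Joins (γ : ℝ → M) (x y : M) : Prop :=
  γ 0 = x ∧ γ (dist x y) = y ∧ ∀ s ∈ Icc 0 (dist x y), ∀ t ∈ Icc 0 (dist x y), dist (γ s) (γ t) = |s - t|

/-- The angle, opposite to the side of length `c`, of the triangle in the Euclidean plane whose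
sides have lengths `a`, `b`, `c`. -/
noncomputable def compAngle (a b c : ℝ) : ℝ := Real.arccos ((a ^ 2 + b ^ 2 - c ^ 2) / (2 * a * b))

/-- The shortest paths `γ` and `σ`, which start at the same point, make the angle `α` there: `α` is
the limit of the comparison angles of the triangles `γ 0, γ s, σ t` as `s` and `t` tend to `0`. -/
def HasAngle (γ σ : ℝ → M) (α : ℝ) : Prop :=
  Tendsto (fun q : ℝ × ℝ => compAngle q.1 q.2 (dist (γ q.1) (σ q.2))) (𝓝[>] 0 ×ˢ 𝓝[>] 0) (𝓝 α)

variable (M) in
/-- Alexandrov spaces of curvature at least `0`: complete geodesic spaces in which every angle of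
every geodesic triangle is at least the corresponding angle of the Euclidean comparison triangle,
and adjacent angles add up to `π`. -/
structure CBBZero : Prop where
  complete : CompleteSpace M
  geodesic : ∀ x y : M, ∃ γ, Joins γ x y
  angle_ge : ∀ p x y : M, p ≠ x → p ≠ y → ∀ γ σ, Joins γ p x → Joins σ p y →
    ∃ α, HasAngle γ σ α ∧ compAngle (dist p x) (dist p y) (dist x y) ≤ α
  adjacent : ∀ x y : M, ∀ γ, Joins γ x y → ∀ t ∈ Ioo 0 (dist x y), ∀ p, γ t ≠ p → ∀ σ, Joins σ (γ t) p →
    ∀ α β, HasAngle σ (fun s => γ (t - s)) α → HasAngle σ (fun s => γ (t + s)) β → α + β = Real.pi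

/-- `D` is closed, its boundary is a Jordan curve and its interior is homeomorphic to an open disk. -/
structure ClosedTopDisk (D : Set M) : Prop where
  closed : IsClosed D
  boundary : Nonempty (frontier D ≃ₜ Metric.sphere (0 : ℂ) 1)
  interior : Nonempty (interior D ≃ₜ Metric.ball (0 : ℂ) 1)

/-- `c` runs once around the boundary of `D`, at unit speed, and the boundary has length `L`. -/
structure BoundaryParam (D : Set M) (L : ℝ) (c : ℝ → M) : Prop where
  pos : 0 < L
  continuous : Continuous c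
  periodic : ∀ s, c (s + L) = c s
  injective : InjOn c (Ico 0 L)
  range : range c = frontier D
  unit_speed : HasUnitSpeedOn c univ

/-- Every shortest path between two points of `D` stays in `D`. -/
def GeodConvex (D : Set M) : Prop :=
  ∀ x ∈ D, ∀ y ∈ D, ∀ γ, Joins γ x y → ∀ t ∈ Icc 0 (dist x y), γ t ∈ D

/-- The swerve of the arc `c '' [s, t]` is `φ`: for broken geodesics with vertices
`c (τ 0), …, c (τ (n + 1))`, `s = τ 0 < … < τ (n + 1) = t`, segments `g i` from `c (τ i)` to
`c (τ (i + 1))` and angles `α i` at `c (τ (i + 1))`, the turn `∑ (π - α i)` tends to `φ` as the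
mesh of the subdivision tends to `0`. -/
def HasSwerve (c : ℝ → M) (s t φ : ℝ) : Prop :=
  ∀ ε > 0, ∃ δ > 0, ∀ (n : ℕ) (τ : ℕ → ℝ) (g : ℕ → ℝ → M) (α : ℕ → ℝ), τ 0 = s → τ (n + 1) = t →
    (∀ i ≤ n, τ i < τ (i + 1) ∧ τ (i + 1) - τ i < δ) →
    (∀ i ≤ n, Joins (g i) (c (τ i)) (c (τ (i + 1)))) →
    (∀ i < n, HasAngle (fun u => g i (dist (c (τ i)) (c (τ (i + 1))) - u)) (g (i + 1)) (α i)) →
    |∑ i ∈ Finset.range n, (Real.pi - α i) - φ| < ε

/-- `D`, with boundary parametrised by `c`, is `lam`-convex: it is convex (so that the angle between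
two chords is the angle measured on the side of `D`), and the swerve of every subarc of the boundary
is at least `lam` times its length. -/
def LambdaConvex (lam : ℝ) (D : Set M) (L : ℝ) (c : ℝ → M) : Prop :=
  GeodConvex D ∧ ∀ s t, s < t → t ≤ s + L → ∃ φ, HasSwerve c s t φ ∧ lam * (t - s) ≤ φ

/-- `R` is the circumscribed radius `min_{p ∈ D} max_{q ∈ ∂D} |pq|` of `D`. -/
def IsCircumradius (D : Set M) (R : ℝ) : Prop :=
  (∃ p ∈ D, ∀ q ∈ frontier D, dist p q ≤ R) ∧ ∀ p ∈ D, ∃ q ∈ frontier D, R ≤ dist p q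

end defs

/-- The arc of length `ℓ` and curvature `lam` on the circle with centre `a`, starting at argument `θ`. -/
noncomputable def arc (lam : ℝ) (a : ℂ) (θ ℓ : ℝ) : Set ℂ :=
  (fun s : ℝ => a + (lam⁻¹ : ℝ) * Complex.exp ((θ + lam * s : ℝ) * Complex.I)) '' Icc 0 ℓ

/-- `S` is a `lam`-convex lune of perimeter `L` in the Euclidean plane `ℂ`: a compact convex region
bounded by two arcs of length `L / 2` and curvature `lam`, the end of each being the start of the
other. -/
def IsLune (lam L : ℝ) (S : Set ℂ) : Prop :=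
  IsCompact S ∧ Convex ℝ S ∧ (interior S).Nonempty ∧ ∃ (a b : ℂ) (θ θ' : ℝ),
    frontier S = arc lam a θ (L / 2) ∪ arc lam b θ' (L / 2) ∧
    a + (lam⁻¹ : ℝ) * Complex.exp ((θ + lam * (L / 2) : ℝ) * Complex.I) =
      b + (lam⁻¹ : ℝ) * Complex.exp ((θ' : ℝ) * Complex.I) ∧
    b + (lam⁻¹ : ℝ) * Complex.exp ((θ' + lam * (L / 2) : ℝ) * Complex.I) =
      a + (lam⁻¹ : ℝ) * Complex.exp ((θ : ℝ) * Complex.I)

end Pool.Agent.Lib.MP_4b815d_gt
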