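import Pool.Agent.Lib.MP_4b815d_gt.Angles

set_option autoImplicit false

open Set Filter Topology
open scoped RealInnerProductSpace

namespace Pool.Agent.Lib.MP_4b815d_gt

/-! ### Dimension -/

theorem dimH_cone : dimH (univ : Set Cone) = 2 := by
  have hfin : dimH (univ : Set ℂ) = 2 := by
    rw [Real.dimH_univ_eq_finrank, Complex.finrank_real_complex]; rfl
  apply le_antisymm
  · have h1 : range mk = univ := by
      ext p; simp only [mem_range, mem_univ, iff_true]; exact mk_surj p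
    rw [← h1, ← hfin]
    exact lipschitz_mk.dimH_range_le
  · -- an isometric copy of a disk
    let f : Metric.ball (2 : ℂ) 1 → Cone := fun z => mk z.1
    have hf : Isometry f := by
      refine Isometry.of_dist_eq fun z w => ?_
      have hz : ‖(2 : ℂ) - z.1‖ < 1 := by
        have := z.2; rw [Metric.mem_ball, dist_comm, dist_eq_norm] at this; exact this
      have hw : ‖(2 : ℂ) - w.1‖ < 1 := by
        have := w.2; rw [Metric.mem_ball, dist_comm, dist_eq_norm] at this; exact this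
      have h1 : ‖z.1 - w.1‖ ≤ ‖z.1 + w.1‖ := by
        have e1 : ‖z.1 - w.1‖ ≤ ‖(2 : ℂ) - w.1‖ + ‖(2 : ℂ) - z.1‖ := by
          have : z.1 - w.1 = ((2 : ℂ) - w.1) - ((2 : ℂ) - z.1) := by ring
          rw [this]; exact norm_sub_le _ _
        have e2 : ‖(4 : ℂ)‖ ≤ ‖z.1 + w.1‖ + (‖(2 : ℂ) - z.1‖ + ‖(2 : ℂ) - w.1‖) := by
          have : (4 : ℂ) = (z.1 + w.1) + (((2 : ℂ) - z.1) + ((2 : ℂ) - w.1)) := by ring
          calc ‖(4 : ℂ)‖ = ‖(z.1 + w.1) + (((2 : ℂ) - z.1) + ((2 : ℂ) - w.1))‖ := by rw [← this]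
            _ ≤ ‖z.1 + w.1‖ + ‖((2 : ℂ) - z.1) + ((2 : ℂ) - w.1)‖ := norm_add_le _ _
            _ ≤ _ := by gcongr; exact norm_add_le _ _
        have e3 : ‖(4 : ℂ)‖ = 4 := by simp
        linarith
      rw [Subtype.dist_eq, dist_eq_norm]
      change dist (mk z.1) (mk w.1) = _
      rw [dist_mk, min_eq_left h1]
    have h2 : dimH (univ : Set (Metric.ball (2 : ℂ) 1)) = 2 := by
      have e1 : dimH (Subtype.val '' (univ : Set (Metric.ball (2 : ℂ) 1))) =
          dimH (univ : Set (Metric.ball (2 : ℂ) 1)) := isometry_subtype_coe.dimH_image _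
      rw [← e1, Subtype.coe_image_univ, Real.dimH_of_nonempty_interior, Complex.finrank_real_complex]
      · rfl
      · rw [Metric.isOpen_ball.interior_eq]; exact ⟨2, by simp⟩
    rw [← h2, ← hf.dimH_image]
    exact dimH_mono (subset_univ _)

/-! ### The disk -/

/-- The disk of radius `lam⁻¹` around the apex. -/
def disk (lam : ℝ) : Set Cone := mk '' Metric.closedBall 0 lam⁻¹

lemma mem_disk {lam : ℝ} {z : ℂ} : mk z ∈ disk lam ↔ ‖z‖ ≤ lam⁻¹ := by
  constructor
  · rintro ⟨w, hw, h⟩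
    rw [Metric.mem_closedBall, dist_zero_right] at hw
    rcases (mk_eq_iff w z).1 h with rfl | rfl
    · exact hw
    · rwa [norm_neg] at hw
  · intro h
    exact ⟨z, by simpa using h, rfl⟩

/-- The squaring map. -/
noncomputable def sqf (lam : ℝ) : Cone → ℂ :=
  Quotient.lift (fun z : ℂ => (lam * z) ^ 2) (by
    rintro z w (rfl | rfl)
    · rfl
    · ring)

lemma sqf_mk (lam : ℝ) (z : ℂ) : sqf lam (mk z) = (lam * z) ^ 2 := rfl

lemma dist_sqf (lam : ℝ) (z w : ℂ) : dist (sqf lam (mk z)) (sqf lam (mk w)) = lam ^ 2 * (‖z - w‖ * ‖z + w‖) := by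
  rw [sqf_mk, sqf_mk, dist_eq_norm]
  have : ((lam : ℂ) * z) ^ 2 - (lam * w) ^ 2 = (lam : ℂ) ^ 2 * ((z - w) * (z + w)) := by ring
  rw [this, norm_mul, norm_mul, norm_pow, Complex.norm_real, Real.norm_eq_abs, sq_abs]

lemma sqf_bijective {lam : ℝ} (hlam : 0 < lam) : Function.Bijective (sqf lam) := by
  have hl : (lam : ℂ) ≠ 0 := by exact_mod_cast hlam.ne'
  constructor
  · intro p q h
    obtain ⟨z, rfl⟩ := mk_surj p
    obtain ⟨w, rfl⟩ := mk_surj q
    rw [sqf_mk, sqf_mk, mul_pow, mul_pow] at h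
    have h2 : z ^ 2 = w ^ 2 := mul_left_cancel₀ (pow_ne_zero 2 hl) h
    rw [mk_eq_iff]
    exact sq_eq_sq_iff_eq_or_eq_neg.1 h2
  · intro x
    obtain ⟨y, hy⟩ := IsAlgClosed.exists_pow_nat_eq x (n := 2) (by norm_num)
    refine ⟨mk (y / lam), ?_⟩
    rw [sqf_mk, mul_div_cancel₀ _ hl, hy]

lemma continuous_sqf (lam : ℝ) : Continuous (sqf lam) := by
  rw [continuous_iff_continuousAt]
  intro p
  obtain ⟨z, rfl⟩ := mk_surj p
  have h1 : ∀ q, dist (sqf lam q) (sqf lam (mk z)) ≤ lam ^ 2 * (dist q (mk z) * (dist q (mk z) + 2 * ‖z‖)) := by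
    intro q
    obtain ⟨w, rfl, hzw⟩ := exists_lift z q
    rw [dist_comm, dist_sqf, dist_comm, ← hzw]
    have e1 : ‖z + w‖ ≤ ‖z - w‖ + 2 * ‖z‖ := by
      have : z + w = (2 : ℝ) • z - (z - w) := by module
      rw [this]
      refine (norm_sub_le _ _).trans ?_
      rw [norm_smul]
      simp
      linarith
    gcongr
  have h2 : Tendsto (fun q => lam ^ 2 * (dist q (mk z) * (dist q (mk z) + 2 * ‖z‖))) (𝓝 (mk z)) (𝓝 0) := by
    have h3 : Continuous (fun q => lam ^ 2 * (dist q (mk z) * (dist q (mk z) + 2 * ‖z‖))) := by fun_prop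
    have h4 := h3.tendsto (mk z)
    simpa using h4
  rw [ContinuousAt, tendsto_iff_dist_tendsto_zero]
  exact squeeze_zero (fun _ => dist_nonneg) h1 h2

/-- The squaring map as a homeomorphism. -/
noncomputable def sqH {lam : ℝ} (hlam : 0 < lam) : Cone ≃ₜ ℂ where
  toEquiv := Equiv.ofBijective (sqf lam) (sqf_bijective hlam)
  continuous_toFun := continuous_sqf lam
  continuous_invFun := by
    rw [Metric.continuous_iff]
    intro x ε hε
    refine ⟨lam ^ 2 * ε ^ 2, by positivity, ?_⟩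
    intro y hy
    set e := Equiv.ofBijective (sqf lam) (sqf_bijective hlam) with he
    change dist (e.symm y) (e.symm x) < ε
    obtain ⟨z, hz⟩ := mk_surj (e.symm y)
    obtain ⟨w, hw⟩ := mk_surj (e.symm x)
    have h1 : y = sqf lam (mk z) := by rw [hz]; exact (e.apply_symm_apply y).symm
    have h2 : x = sqf lam (mk w) := by rw [hw]; exact (e.apply_symm_apply x).symm
    rw [h1, h2, dist_sqf] at hy
    rw [← hz, ← hw]
    have h3 : dist (mk z) (mk w) ^ 2 ≤ ‖z - w‖ * ‖z + w‖ := by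
      rw [sq]
      exact mul_le_mul (dist_mk_le z w) (dist_mk_le' z w) dist_nonneg (norm_nonneg _)
    have h4 : ‖z - w‖ * ‖z + w‖ < ε ^ 2 := lt_of_mul_lt_mul_left hy (by positivity)
    exact lt_of_pow_lt_pow_left₀ 2 hε.le (h3.trans_lt h4)

lemma sqH_apply {lam : ℝ} (hlam : 0 < lam) (p : Cone) : sqH hlam p = sqf lam p := rfl

lemma norm_sqf {lam : ℝ} (hlam : 0 < lam) (z : ℂ) : ‖sqf lam (mk z)‖ = (lam * ‖z‖) ^ 2 := by
  rw [sqf_mk, norm_pow, norm_mul, Complex.norm_real, Real.norm_eq_abs, abs_of_pos hlam]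

lemma mul_le_one_iff' {lam x : ℝ} (hlam : 0 < lam) : lam * x ≤ 1 ↔ x ≤ lam⁻¹ := by
  rw [← mul_le_mul_iff_right₀ hlam (b := x) (c := lam⁻¹), mul_inv_cancel₀ hlam.ne']

lemma disk_eq {lam : ℝ} (hlam : 0 < lam) : disk lam = sqH hlam ⁻¹' Metric.closedBall 0 1 := by
  ext p
  obtain ⟨z, rfl⟩ := mk_surj p
  rw [mem_disk, mem_preimage, Metric.mem_closedBall, dist_zero_right, sqH_apply, norm_sqf hlam,
    sq_le_one_iff₀ (by positivity), mul_le_one_iff' hlam]

lemma frontier_disk {lam : ℝ} (hlam : 0 < lam) : frontier (disk lam) = sqH hlam ⁻¹' Metric.sphere 0 1 := by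
  rw [disk_eq hlam, ← (sqH hlam).preimage_frontier, frontier_closedBall (0 : ℂ) one_ne_zero]

lemma interior_disk {lam : ℝ} (hlam : 0 < lam) : interior (disk lam) = sqH hlam ⁻¹' Metric.ball 0 1 := by
  rw [disk_eq hlam, ← (sqH hlam).preimage_interior, interior_closedBall (0 : ℂ) one_ne_zero]

theorem closedTopDisk_disk {lam : ℝ} (hlam : 0 < lam) : ClosedTopDisk (disk lam) where
  closed := by
    rw [disk_eq hlam]
    exact Metric.isClosed_closedBall.preimage (sqH hlam).continuous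
  boundary := ⟨(sqH hlam).sets (frontier_disk hlam)⟩
  interior := ⟨(sqH hlam).sets (interior_disk hlam)⟩

lemma mem_frontier_disk {lam : ℝ} (hlam : 0 < lam) (z : ℂ) : mk z ∈ frontier (disk lam) ↔ ‖z‖ = lam⁻¹ := by
  rw [frontier_disk hlam, mem_preimage, mem_sphere_zero_iff_norm, sqH_apply, norm_sqf hlam]
  constructor
  · intro h
    have h0 : 0 ≤ lam * ‖z‖ := by positivity
    have h2 : lam * ‖z‖ = 1 := (pow_eq_one_iff_of_nonneg h0 two_ne_zero).1 h
    exact eq_inv_of_mul_eq_one_right h2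
  · intro h
    rw [h, mul_inv_cancel₀ hlam.ne']; norm_num

theorem geodConvex_disk (lam : ℝ) : GeodConvex (disk lam) := by
  intro x hx y hy γ hγ t ht
  obtain ⟨z, rfl⟩ := mk_surj x
  by_cases hxy : mk z = y
  · rw [← hxy, dist_self] at ht
    have : t = 0 := le_antisymm ht.2 ht.1
    rw [this, hγ.1]
    exact hx
  obtain ⟨u, hu, hγu⟩ := joins_char hγ hxy
  set ℓ := dist (mk z) y with hℓ
  have hpos : 0 < ℓ := dist_pos.2 hxy
  have hyl : mk (z + ℓ • u) = y := by rw [← hγu ℓ ⟨hpos.le, le_rfl⟩]; exact hγ.2.1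
  rw [hγu t ht, mem_disk]
  rw [← hyl, mem_disk] at hy
  rw [mem_disk] at hx
  have h1 : z + t • u = (1 - t / ℓ) • z + (t / ℓ) • (z + ℓ • u) := by
    rw [smul_add, smul_smul, div_mul_cancel₀ _ hpos.ne']
    module
  have h2 : 0 ≤ t / ℓ := div_nonneg ht.1 hpos.le
  have h3 : t / ℓ ≤ 1 := (div_le_one hpos).2 ht.2
  rw [h1]
  calc ‖(1 - t / ℓ) • z + (t / ℓ) • (z + ℓ • u)‖ ≤ (1 - t / ℓ) * ‖z‖ + (t / ℓ) * ‖z + ℓ • u‖ := by
        refine (norm_add_le _ _).trans ?_
        rw [norm_smul, norm_smul, Real.norm_eq_abs, Real.norm_eq_abs, abs_of_nonneg h2,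
          abs_of_nonneg (by linarith : 0 ≤ 1 - t / ℓ)]
    _ ≤ (1 - t / ℓ) * lam⁻¹ + (t / ℓ) * lam⁻¹ := by
        gcongr
    _ = lam⁻¹ := by ring

/-- The circumscribed radius of the disk is `lam⁻¹`. -/
theorem isCircumradius_disk {lam : ℝ} (hlam : 0 < lam) : IsCircumradius (disk lam) lam⁻¹ := by
  constructor
  · refine ⟨mk 0, mem_disk.2 (by simp [hlam.le]), ?_⟩
    intro q hq
    obtain ⟨w, rfl⟩ := mk_surj q
    rw [mem_frontier_disk hlam] at hq
    refine (dist_mk_le _ _).trans ?_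
    rw [zero_sub, norm_neg, hq]
  · intro p _
    obtain ⟨z, rfl⟩ := mk_surj p
    -- a unit vector orthogonal to `z`
    obtain ⟨u, hu, hzu⟩ : ∃ u : ℂ, ‖u‖ = 1 ∧ ⟪z, u⟫ = 0 := by
      by_cases hz : z = 0
      · exact ⟨1, by simp, by simp [hz]⟩
      · refine ⟨Complex.I * (z / ‖z‖), ?_, ?_⟩
        · rw [norm_mul, norm_div, Complex.norm_I, Complex.norm_real, norm_norm, one_mul,
            div_self (norm_ne_zero_iff.2 hz)]
        · rw [Complex.inner]
          have : Complex.I * (z / ‖z‖) * (starRingEnd ℂ) z = Complex.I * (((‖z‖ ^ 2 / ‖z‖ : ℝ)) : ℂ) := by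
            have h1 := Complex.mul_conj z
            rw [Complex.normSq_eq_norm_sq] at h1
            push_cast at h1 ⊢
            rw [← h1]; ring
          rw [this, Complex.I_mul_re, Complex.ofReal_im, neg_zero]
    refine ⟨mk (lam⁻¹ • u), ?_, ?_⟩
    · rw [mem_frontier_disk hlam, norm_smul, hu, mul_one, Real.norm_eq_abs, abs_of_pos (by positivity)]
    · have h1 : ⟪z, lam⁻¹ • u⟫ = 0 := by rw [inner_smul_right, hzu, mul_zero]
      rw [dist_mk_of_inner h1.ge, ← sq_le_sq₀ (by positivity) (norm_nonneg _), norm_sub_sq_real, h1,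
        norm_smul, hu, Real.norm_eq_abs, abs_of_pos (by positivity : 0 < lam⁻¹)]
      nlinarith [sq_nonneg ‖z‖]

end Pool.Agent.Lib.MP_4b815d_gt
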