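import Pool.Agent.Lib.MP_4b815d_gt.Disk

set_option autoImplicit false

open Set Filter Topology
open scoped RealInnerProductSpace

namespace Pool.Agent.Lib.MP_4b815d_gt

/-- Small balls of the cone which are far from the apex are isometric to balls of the plane. -/
theorem flat_ball {z : ℂ} (hz : z ≠ 0) : Nonempty (Metric.ball (mk z) (‖z‖ / 2) ≃ᵢ Metric.ball (0 : ℂ) (‖z‖ / 2)) := by
  have hz' : 0 < ‖z‖ := norm_pos_iff.2 hz
  set ε := ‖z‖ / 2 with hε
  have hd : ∀ w : Metric.ball (0 : ℂ) ε, ∀ w' : Metric.ball (0 : ℂ) ε,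
      dist (mk (z + w)) (mk (z + w')) = ‖(w : ℂ) - w'‖ := by
    rintro ⟨w, hw⟩ ⟨w', hw'⟩
    rw [mem_ball_zero_iff] at hw hw'
    rw [dist_mk]
    have e1 : z + w - (z + w') = w - w' := by ring
    simp only
    rw [e1]
    apply min_eq_left
    have h1 : ‖w - w'‖ ≤ ‖w‖ + ‖w'‖ := norm_sub_le _ _
    have h2 : ‖(2 : ℂ) * z‖ ≤ ‖z + w + (z + w')‖ + (‖w‖ + ‖w'‖) := by
      have e2 : (2 : ℂ) * z = (z + w + (z + w')) - (w + w') := by ring
      calc ‖(2 : ℂ) * z‖ = ‖(z + w + (z + w')) - (w + w')‖ := by rw [← e2]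
        _ ≤ ‖z + w + (z + w')‖ + ‖w + w'‖ := norm_sub_le _ _
        _ ≤ _ := by gcongr; exact norm_add_le _ _
    rw [norm_mul, Complex.norm_ofNat] at h2
    linarith
  let f : Metric.ball (0 : ℂ) ε → Metric.ball (mk z) ε := fun w => ⟨mk (z + w), by
    rw [Metric.mem_ball]
    refine (dist_mk_le _ _).trans_lt ?_
    have : z + (w : ℂ) - z = w := by ring
    rw [this]
    exact mem_ball_zero_iff.1 w.2⟩
  have hf : Isometry f := by
    refine Isometry.of_dist_eq fun w w' => ?_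
    have := hd w w'
    rw [Subtype.dist_eq, Subtype.dist_eq, dist_eq_norm]
    exact this
  have hs : Function.Surjective f := by
    rintro ⟨q, hq⟩
    obtain ⟨w, rfl, hw⟩ := exists_lift z q
    refine ⟨⟨w - z, ?_⟩, ?_⟩
    · rw [mem_ball_zero_iff, norm_sub_rev, hw, dist_comm]
      exact hq
    · apply Subtype.ext
      change mk (z + (w - z)) = mk w
      congr 1
      ring
  exact ⟨(IsometryEquiv.mk (Equiv.ofBijective f ⟨hf.injective, hs⟩) hf).symm⟩

theorem flat_near_frontier {lam : ℝ} (hlam : 0 < lam) :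
    ∀ q ∈ frontier (disk lam), ∃ ε > 0, Nonempty (Metric.ball q ε ≃ᵢ Metric.ball (0 : ℂ) ε) := by
  intro q hq
  obtain ⟨z, rfl⟩ := mk_surj q
  rw [mem_frontier_disk hlam] at hq
  have hz : z ≠ 0 := by
    rw [← norm_pos_iff, hq]
    exact inv_pos.2 hlam
  exact ⟨‖z‖ / 2, by rw [hq]; have := inv_pos.2 hlam; positivity, flat_ball hz⟩

end Pool.Agent.Lib.MP_4b815d_gt
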