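import Pool.Agent.Lib.MP_4b815d_gt.Boundary

set_option autoImplicit false

open Set Filter Topology
open scoped RealInnerProductSpace

namespace Pool.Agent.Lib.MP_4b815d_gt

lemma arc_eq (lam : ℝ) (a : ℂ) (θ ℓ : ℝ) :
    arc lam a θ ℓ = (fun s : ℝ => a + lam⁻¹ • E (θ + lam * s)) '' Icc 0 ℓ := by
  unfold arc E
  simp only [Complex.real_smul]

/-- The midpoint of the chord of a quarter circle. -/
lemma midpoint_quarter (lam : ℝ) (a : ℂ) (θ : ℝ) :
    midpoint ℝ (a + lam⁻¹ • E θ) (a + lam⁻¹ • E (θ + Real.pi / 2)) =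
      a + (lam⁻¹ * Real.cos (Real.pi / 4)) • E (θ + Real.pi / 4) := by
  have h : E θ + E (θ + Real.pi / 2) = (2 * Real.cos (Real.pi / 4)) • E (θ + Real.pi / 4) := by
    apply Complex.ext
    · rw [Complex.add_re, Complex.real_smul, Complex.re_ofReal_mul, E_re, E_re, E_re, Real.cos_add_cos]
      have e1 : (θ + (θ + Real.pi / 2)) / 2 = θ + Real.pi / 4 := by ring
      have e2 : (θ - (θ + Real.pi / 2)) / 2 = -(Real.pi / 4) := by ring
      rw [e1, e2, Real.cos_neg]
      ring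
    · rw [Complex.add_im, Complex.real_smul, Complex.im_ofReal_mul, E_im, E_im, E_im]
      have e0 : Real.sin θ + Real.sin (θ + Real.pi / 2) = Real.sin θ - Real.sin (-(θ + Real.pi / 2)) := by
        rw [Real.sin_neg]; ring
      rw [e0, Real.sin_sub_sin]
      have e1 : (θ - -(θ + Real.pi / 2)) / 2 = θ + Real.pi / 4 := by ring
      have e2 : (θ + -(θ + Real.pi / 2)) / 2 = -(Real.pi / 4) := by ring
      rw [e1, e2, Real.cos_neg]
      ring
  rw [midpoint_eq_smul_add, invOf_eq_inv]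
  have h2 : a + lam⁻¹ • E θ + (a + lam⁻¹ • E (θ + Real.pi / 2)) = (2 : ℝ) • a + lam⁻¹ • (E θ + E (θ + Real.pi / 2)) := by
    module
  rw [h2, h]
  module

lemma dist_midpoint_le {lam : ℝ} (hlam : 0 < lam) (a : ℂ) (θ : ℝ) {φ : ℝ} (hφ : φ ∈ Icc 0 (Real.pi / 2)) :
    dist (midpoint ℝ (a + lam⁻¹ • E θ) (a + lam⁻¹ • E (θ + Real.pi / 2))) (a + lam⁻¹ • E (θ + φ)) ≤
      Real.sin (Real.pi / 4) / lam := by
  have hpi := Real.pi_pos
  rw [midpoint_quarter, dist_add_left, dist_eq_norm]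
  have hs : 0 < Real.sin (Real.pi / 4) := Real.sin_pos_of_pos_of_lt_pi (by linarith) (by linarith)
  have hc : 0 < Real.cos (Real.pi / 4) := Real.cos_pos_of_mem_Ioo ⟨by linarith, by linarith⟩
  rw [← sq_le_sq₀ (norm_nonneg _) (by positivity), norm_smul_sub_smul_sq (norm_E _) (norm_E _), inner_E]
  have h1 : Real.cos (Real.pi / 4) ≤ Real.cos (θ + Real.pi / 4 - (θ + φ)) := by
    have e : θ + Real.pi / 4 - (θ + φ) = Real.pi / 4 - φ := by ring
    rw [e, ← Real.cos_abs (Real.pi / 4 - φ)]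
    apply Real.cos_le_cos_of_nonneg_of_le_pi (abs_nonneg _) (by linarith)
    rw [abs_le]
    exact ⟨by linarith [hφ.2], by linarith [hφ.1]⟩
  have h2 := Real.sin_sq_add_cos_sq (Real.pi / 4)
  have h3 : (Real.sin (Real.pi / 4) / lam) ^ 2 = lam⁻¹ ^ 2 * (1 - Real.cos (Real.pi / 4) ^ 2) := by
    rw [← h2, div_eq_mul_inv]; ring
  rw [h3]
  have h4 : 0 < lam⁻¹ := inv_pos.2 hlam
  have h5 : lam⁻¹ ^ 2 * Real.cos (Real.pi / 4) * Real.cos (Real.pi / 4) ≤
      lam⁻¹ ^ 2 * Real.cos (Real.pi / 4) * Real.cos (θ + Real.pi / 4 - (θ + φ)) := by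
    apply mul_le_mul_of_nonneg_left h1 (by positivity)
  nlinarith

/-- The circumscribed radius of the lune of perimeter `π / lam`. -/
theorem isCircumradius_lune {lam : ℝ} (hlam : 0 < lam) {S : Set ℂ} (hS : IsLune lam (Real.pi / lam) S) :
    IsCircumradius S (Real.sin (Real.pi / 4) / lam) := by
  have hpi := Real.pi_pos
  obtain ⟨hcomp, hconv, -, a, b, θ, θ', hfr, hv, hw⟩ := hS
  have hL : lam * (Real.pi / lam / 2) = Real.pi / 2 := by field_simp
  have hv' : a + lam⁻¹ • E (θ + Real.pi / 2) = b + lam⁻¹ • E θ' := by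
    rw [hL] at hv
    simpa only [E, Complex.real_smul] using hv
  have hw' : b + lam⁻¹ • E (θ' + Real.pi / 2) = a + lam⁻¹ • E θ := by
    rw [hL] at hw
    simpa only [E, Complex.real_smul] using hw
  have hmem : ∀ {x : ℂ}, x ∈ frontier S → x ∈ S := fun hx => hcomp.isClosed.frontier_subset hx
  have h0 : (0 : ℝ) ∈ Icc 0 (Real.pi / lam / 2) := ⟨le_rfl, by positivity⟩
  have h1 : Real.pi / lam / 2 ∈ Icc 0 (Real.pi / lam / 2) := ⟨by positivity, le_rfl⟩
  have hP : a + lam⁻¹ • E θ ∈ frontier S := by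
    rw [hfr, arc_eq, arc_eq]
    left
    exact ⟨0, h0, by simp⟩
  have hQ : a + lam⁻¹ • E (θ + Real.pi / 2) ∈ frontier S := by
    rw [hfr, arc_eq, arc_eq]
    left
    exact ⟨_, h1, by simp only [hL]⟩
  set P := a + lam⁻¹ • E θ with hPdef
  set Q := a + lam⁻¹ • E (θ + Real.pi / 2) with hQdef
  constructor
  · refine ⟨midpoint ℝ P Q, ?_, ?_⟩
    · have := hconv.midpoint_mem (hmem hP) (hmem hQ)
      exact this
    · intro q hq
      rw [hfr, arc_eq, arc_eq] at hq
      rcases hq with ⟨s, hs, rfl⟩ | ⟨s, hs, rfl⟩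
      · exact dist_midpoint_le hlam a θ ⟨mul_nonneg hlam.le hs.1, by rw [← hL]; exact mul_le_mul_of_nonneg_left hs.2 hlam.le⟩
      · rw [hv', ← hw', midpoint_comm]
        exact dist_midpoint_le hlam b θ' ⟨mul_nonneg hlam.le hs.1, by rw [← hL]; exact mul_le_mul_of_nonneg_left hs.2 hlam.le⟩
  · intro p _
    have hPQ : dist P Q = 2 * (Real.sin (Real.pi / 4) / lam) := by
      rw [hPdef, hQdef, dist_add_left, dist_comm, dist_eq_norm, ← smul_sub, norm_smul, norm_E_sub_E, Real.norm_eq_abs,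
        abs_of_pos (inv_pos.2 hlam)]
      have e : (θ + Real.pi / 2 - θ) / 2 = Real.pi / 4 := by ring
      have hs : 0 < Real.sin (Real.pi / 4) := Real.sin_pos_of_pos_of_lt_pi (by linarith) (by linarith)
      rw [e, abs_of_pos hs]
      ring
    have htri : dist P Q ≤ dist p P + dist p Q := by
      rw [dist_comm p P]
      exact dist_triangle P p Q
    by_cases hp : Real.sin (Real.pi / 4) / lam ≤ dist p P
    · exact ⟨P, hP, hp⟩
    · exact ⟨Q, hQ, by linarith⟩

/-! ### Existence of the lune -/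

section exist

variable {lam : ℝ} (hlam : 0 < lam)

/-- Half the distance of the centres. -/
noncomputable def dd (lam : ℝ) : ℝ := lam⁻¹ * Real.cos (Real.pi / 4)

/-- The lune. -/
noncomputable def lune (lam : ℝ) : Set ℂ :=
  Metric.closedBall (-(dd lam : ℂ)) lam⁻¹ ∩ Metric.closedBall (dd lam : ℂ) lam⁻¹

include hlam

lemma dd_pos : 0 < dd lam := by
  have hpi := Real.pi_pos
  have hc : 0 < Real.cos (Real.pi / 4) := Real.cos_pos_of_mem_Ioo ⟨by linarith, by linarith⟩
  unfold dd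
  positivity

lemma dd_lt : dd lam < lam⁻¹ := by
  have hpi := Real.pi_pos
  have hc : Real.cos (Real.pi / 4) < 1 := by
    rw [Real.cos_pi_div_four, div_lt_one two_pos, Real.sqrt_lt' two_pos]
    norm_num
  unfold dd
  have : 0 < lam⁻¹ := inv_pos.2 hlam
  nlinarith

lemma dist_sq_arc (φ : ℝ) : ‖-(dd lam : ℂ) + lam⁻¹ • E φ - (dd lam : ℂ)‖ ^ 2 =
    lam⁻¹ ^ 2 - 4 * lam⁻¹ * dd lam * (Real.cos φ - Real.cos (Real.pi / 4)) := by
  have h1 : -(dd lam : ℂ) + lam⁻¹ • E φ - (dd lam : ℂ) = lam⁻¹ • E φ - (2 * dd lam) • E 0 := by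
    apply Complex.ext
    · simp only [Complex.sub_re, Complex.add_re, Complex.neg_re, Complex.ofReal_re, Complex.real_smul,
        Complex.re_ofReal_mul, E_re, Real.cos_zero]
      ring
    · simp only [Complex.sub_im, Complex.add_im, Complex.neg_im, Complex.ofReal_im, Complex.real_smul,
        Complex.im_ofReal_mul, E_im, Real.sin_zero]
      ring
  rw [h1, norm_smul_sub_smul_sq (norm_E _) (norm_E _), inner_E, sub_zero]
  unfold dd
  ring

lemma mem_arc_iff (z : ℂ) : z ∈ arc lam (-(dd lam : ℂ)) (-(Real.pi / 4)) (Real.pi / lam / 2) ↔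
    ‖z + (dd lam : ℂ)‖ = lam⁻¹ ∧ ‖z - (dd lam : ℂ)‖ ≤ lam⁻¹ := by
  have hpi := Real.pi_pos
  have hL : lam * (Real.pi / lam / 2) = Real.pi / 2 := by field_simp
  have hd := dd_pos hlam
  have hl : 0 < lam⁻¹ := inv_pos.2 hlam
  rw [arc_eq]
  constructor
  · rintro ⟨s, hs, rfl⟩
    have hs1 : 0 ≤ lam * s := mul_nonneg hlam.le hs.1
    have hs2 : lam * s ≤ Real.pi / 2 := by rw [← hL]; exact mul_le_mul_of_nonneg_left hs.2 hlam.le
    constructor
    · have : -(dd lam : ℂ) + lam⁻¹ • E (-(Real.pi / 4) + lam * s) + (dd lam : ℂ) = lam⁻¹ • E (-(Real.pi / 4) + lam * s) := by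
        ring
      rw [this, norm_smul, norm_E, mul_one, Real.norm_eq_abs, abs_of_pos hl]
    · rw [← sq_le_sq₀ (norm_nonneg _) hl.le, dist_sq_arc hlam]
      have h1 : Real.cos (Real.pi / 4) ≤ Real.cos (-(Real.pi / 4) + lam * s) := by
        rw [← Real.cos_abs (-(Real.pi / 4) + lam * s)]
        apply Real.cos_le_cos_of_nonneg_of_le_pi (abs_nonneg _) (by linarith)
        rw [abs_le]
        exact ⟨by linarith, by linarith⟩
      have h2 : 0 ≤ 4 * lam⁻¹ * dd lam * (Real.cos (-(Real.pi / 4) + lam * s) - Real.cos (Real.pi / 4)) :=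
        mul_nonneg (by positivity) (by linarith)
      linarith
  · rintro ⟨h1, h2⟩
    set w := z + (dd lam : ℂ) with hw
    have hz : z = -(dd lam : ℂ) + lam⁻¹ • E (Complex.arg w) := by
      have h3 := Complex.norm_mul_exp_arg_mul_I w
      rw [h1] at h3
      have h4 : lam⁻¹ • E (Complex.arg w) = w := by
        rw [E, Complex.real_smul]
        exact h3
      rw [h4, hw]
      ring
    have h5 : Real.cos (Real.pi / 4) ≤ Real.cos (Complex.arg w) := by
      by_contra hcon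
      push Not at hcon
      rw [hz, ← sq_le_sq₀ (norm_nonneg _) hl.le, dist_sq_arc hlam] at h2
      have h6 : 0 < 4 * lam⁻¹ * dd lam * (Real.cos (Real.pi / 4) - Real.cos (Complex.arg w)) :=
        mul_pos (by positivity) (by linarith)
      nlinarith
    have h6 : |Complex.arg w| ≤ Real.pi / 4 := by
      by_contra hcon
      push Not at hcon
      have h7 : Real.cos |Complex.arg w| < Real.cos (Real.pi / 4) :=
        Real.cos_lt_cos_of_nonneg_of_le_pi (by linarith) (Complex.abs_arg_le_pi w) hcon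
      rw [Real.cos_abs] at h7
      linarith
    rw [abs_le] at h6
    refine ⟨(Complex.arg w + Real.pi / 4) / lam, ⟨?_, ?_⟩, ?_⟩
    · apply div_nonneg (by linarith) hlam.le
    · rw [div_le_iff₀ hlam]
      have : Real.pi / lam / 2 * lam = Real.pi / 2 := by field_simp
      rw [this]
      linarith
    · have e : -(Real.pi / 4) + lam * ((Complex.arg w + Real.pi / 4) / lam) = Complex.arg w := by
        field_simp
        ring
      simp only [e]
      exact hz.symm

omit hlam in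
lemma mem_arc_iff_neg (z : ℂ) : z ∈ arc lam (dd lam : ℂ) (3 * Real.pi / 4) (Real.pi / lam / 2) ↔
    -z ∈ arc lam (-(dd lam : ℂ)) (-(Real.pi / 4)) (Real.pi / lam / 2) := by
  rw [arc_eq, arc_eq]
  have key : ∀ s : ℝ, E (3 * Real.pi / 4 + lam * s) = -E (-(Real.pi / 4) + lam * s) := by
    intro s
    rw [← E_add_pi]
    congr 1
    ring
  constructor
  · rintro ⟨s, hs, rfl⟩
    refine ⟨s, hs, ?_⟩
    simp only [key, smul_neg]
    ring
  · rintro ⟨s, hs, h⟩
    refine ⟨s, hs, ?_⟩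
    simp only [key, smul_neg]
    simp only at h
    rw [← neg_neg z, ← h]
    ring

lemma frontier_lune : frontier (lune lam) =
    arc lam (-(dd lam : ℂ)) (-(Real.pi / 4)) (Real.pi / lam / 2) ∪
      arc lam (dd lam : ℂ) (3 * Real.pi / 4) (Real.pi / lam / 2) := by
  have hne : (lam⁻¹ : ℝ) ≠ 0 := (inv_pos.2 hlam).ne'
  have hcl : IsClosed (lune lam) := Metric.isClosed_closedBall.inter Metric.isClosed_closedBall
  rw [hcl.frontier_eq]
  have hint : interior (lune lam) = Metric.ball (-(dd lam : ℂ)) lam⁻¹ ∩ Metric.ball (dd lam : ℂ) lam⁻¹ := by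
    rw [lune, interior_inter, interior_closedBall _ hne, interior_closedBall _ hne]
  rw [hint]
  ext z
  rw [mem_union, mem_arc_iff_neg, mem_arc_iff hlam, mem_arc_iff hlam]
  have e1 : ‖-z + (dd lam : ℂ)‖ = ‖z - (dd lam : ℂ)‖ := by rw [← norm_neg]; congr 1; ring
  have e2 : ‖-z - (dd lam : ℂ)‖ = ‖z + (dd lam : ℂ)‖ := by rw [← norm_neg]; congr 1; ring
  rw [e1, e2]
  simp only [lune, Set.mem_sdiff, mem_inter_iff, Metric.mem_closedBall, Metric.mem_ball, dist_eq_norm, sub_neg_eq_add]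
  constructor
  · rintro ⟨⟨h1, h2⟩, h3⟩
    by_cases h4 : ‖z + (dd lam : ℂ)‖ < lam⁻¹
    · right
      have h5 : ¬ ‖z - (dd lam : ℂ)‖ < lam⁻¹ := fun h => h3 ⟨h4, h⟩
      exact ⟨le_antisymm h2 (not_lt.1 h5), h1⟩
    · left
      exact ⟨le_antisymm h1 (not_lt.1 h4), h2⟩
  · rintro (⟨h1, h2⟩ | ⟨h1, h2⟩)
    · exact ⟨⟨h1.le, h2⟩, fun h => h.1.ne h1⟩
    · exact ⟨⟨h2, h1.le⟩, fun h => h.2.ne h1⟩

theorem isLune_lune : IsLune lam (Real.pi / lam) (lune lam) := by
  have hpi := Real.pi_pos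
  have hL : lam * (Real.pi / lam / 2) = Real.pi / 2 := by field_simp
  have hne : (lam⁻¹ : ℝ) ≠ 0 := (inv_pos.2 hlam).ne'
  refine ⟨(isCompact_closedBall _ _).inter (isCompact_closedBall _ _),
    (convex_closedBall _ _).inter (convex_closedBall _ _), ?_, -(dd lam : ℂ), dd lam, -(Real.pi / 4),
    3 * Real.pi / 4, frontier_lune hlam, ?_, ?_⟩
  · refine ⟨0, ?_⟩
    rw [lune, interior_inter, interior_closedBall _ hne, interior_closedBall _ hne, mem_inter_iff, Metric.mem_ball,
      Metric.mem_ball, dist_eq_norm, dist_eq_norm, zero_sub, zero_sub, neg_neg, norm_neg, Complex.norm_real,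
      Real.norm_eq_abs, abs_of_pos (dd_pos hlam)]
    exact ⟨dd_lt hlam, dd_lt hlam⟩
  · have h : -(dd lam : ℂ) + lam⁻¹ • E (-(Real.pi / 4) + lam * (Real.pi / lam / 2)) = dd lam + lam⁻¹ • E (3 * Real.pi / 4) := by
      rw [hL]
      have e1 : -(Real.pi / 4) + Real.pi / 2 = Real.pi / 4 := by ring
      have e2 : 3 * Real.pi / 4 = Real.pi - Real.pi / 4 := by ring
      rw [e1, e2]
      apply Complex.ext
      · simp only [Complex.add_re, Complex.neg_re, Complex.ofReal_re, Complex.real_smul,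
          Complex.re_ofReal_mul, E_re, Real.cos_pi_sub, dd]
        ring
      · simp only [Complex.add_im, Complex.neg_im, Complex.ofReal_im, Complex.real_smul,
          Complex.im_ofReal_mul, E_im, Real.sin_pi_sub]
        ring
    simpa only [E, Complex.real_smul] using h
  · have h : (dd lam : ℂ) + lam⁻¹ • E (3 * Real.pi / 4 + lam * (Real.pi / lam / 2)) = -(dd lam : ℂ) + lam⁻¹ • E (-(Real.pi / 4)) := by
      rw [hL]
      have e1 : 3 * Real.pi / 4 + Real.pi / 2 = Real.pi / 4 + Real.pi := by ring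
      rw [e1, E_add_pi]
      apply Complex.ext
      · simp only [Complex.add_re, Complex.neg_re, Complex.ofReal_re, Complex.real_smul,
          Complex.re_ofReal_mul, E_re, Real.cos_neg, dd]
        ring
      · simp only [Complex.add_im, Complex.neg_im, Complex.ofReal_im, Complex.real_smul,
          Complex.im_ofReal_mul, E_im, Real.sin_neg]
        ring
    simpa only [E, Complex.real_smul] using h

end exist

end Pool.Agent.Lib.MP_4b815d_gt
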