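import Pool.Agent.Lib.MP_4b815d_gt.Boundary

set_option autoImplicit false

open Set Filter Topology
open scoped RealInnerProductSpace

namespace Pool.Agent.Lib.MP_4b815d_gt

section

variable {lam : ℝ} (hlam : 0 < lam)

include hlam

lemma dist_bd_pos {s t : ℝ} (hst : s < t) (h : lam * (t - s) ≤ Real.pi / 4) :
    0 < dist (bd lam s) (bd lam t) := by
  have hpi := Real.pi_pos
  have h0 : 0 < lam * (t - s) := mul_pos hlam (by linarith)
  rw [dist_bd hlam hst.le (by linarith)]
  have : 0 < Real.sin (lam * (t - s) / 2) := Real.sin_pos_of_pos_of_lt_pi (by linarith) (by linarith)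
  positivity

/-- The shape of the chords. -/
lemma chord {s t : ℝ} (hst : s < t) (h : lam * (t - s) ≤ Real.pi / 4) {g : ℝ → Cone}
    (hg : Joins g (bd lam s) (bd lam t)) :
    lam⁻¹ • E (lam * t) = lam⁻¹ • E (lam * s) +
      dist (bd lam s) (bd lam t) • E ((lam * s + lam * t) / 2 + Real.pi / 2) ∧
    ∀ r ∈ Icc 0 (dist (bd lam s) (bd lam t)),
      g r = mk (lam⁻¹ • E (lam * s) + r • E ((lam * s + lam * t) / 2 + Real.pi / 2)) := by
  have hpi := Real.pi_pos
  have h0 : 0 < lam * (t - s) := mul_pos hlam (by linarith)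
  have hd := dist_bd hlam hst.le (by linarith)
  have hpos := dist_bd_pos hlam hst h
  have hne : mk (lam⁻¹ • E (lam * s)) ≠ bd lam t := dist_pos.1 hpos
  obtain ⟨u, hu, hgu⟩ := joins_char hg hne
  set P := lam⁻¹ • E (lam * s) with hP
  set Q := lam⁻¹ • E (lam * t) with hQ
  set v := E ((lam * s + lam * t) / 2 + Real.pi / 2) with hv
  set d := dist (bd lam s) (bd lam t) with hdd
  have hQP : Q - P = d • v := by
    rw [hP, hQ, ← smul_sub, E_sub_E, smul_smul, hd, mul_sub]
  have hend := hgu d ⟨hpos.le, le_rfl⟩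
  rw [hg.2.1] at hend
  have hu' : u = v := by
    have hinner : 0 < ⟪P, Q⟫ := by
      rw [hP, hQ, inner_smul_left, inner_smul_right, inner_E, ← mul_sub]
      have : 0 < Real.cos (lam * (s - t)) := Real.cos_pos_of_mem_Ioo ⟨by linarith, by linarith⟩
      have h2 : 0 < lam⁻¹ := inv_pos.2 hlam
      simp only [conj_trivial]
      positivity
    rcases (mk_eq_iff _ _).1 hend with h1 | h1
    · have h2 : Q = P + d • u := h1
      have h3 : d • u = d • v := by rw [← hQP, h2]; abel
      exact smul_right_injective ℂ hpos.ne' h3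
    · exfalso
      have h2 : Q = -(P + d • u) := h1
      have h3 : P + Q = -(d • u) := by rw [h2]; abel
      have h4 : ‖P + Q‖ = d := by rw [h3, norm_neg, norm_smul, hu, mul_one, Real.norm_eq_abs, abs_of_pos hpos]
      have h5 : ‖P - Q‖ = d := by
        rw [norm_sub_rev, hQP, norm_smul, norm_E, mul_one, Real.norm_eq_abs, abs_of_pos hpos]
      have h6 := norm_sub_sq_real P Q
      have h7 := norm_add_sq_real P Q
      rw [h5] at h6
      rw [h4] at h7
      linarith
  refine ⟨?_, ?_⟩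
  · rw [← hQP]; abel
  · rw [← hu']
    exact hgu

/-- The angle at a vertex of an inscribed polygon. -/
lemma chord_angle {r s t : ℝ} (hrs : r < s) (hst : s < t) (h1 : lam * (s - r) ≤ Real.pi / 4)
    (h2 : lam * (t - s) ≤ Real.pi / 4) {f g : ℝ → Cone} (hf : Joins f (bd lam r) (bd lam s))
    (hg : Joins g (bd lam s) (bd lam t)) {α : ℝ}
    (hα : HasAngle (fun u => f (dist (bd lam r) (bd lam s) - u)) g α) :
    α = Real.pi - lam * (t - r) / 2 := by
  have hpi := Real.pi_pos
  have h0 : 0 < lam * (t - s) := mul_pos hlam (by linarith)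
  have h0' : 0 < lam * (s - r) := mul_pos hlam (by linarith)
  obtain ⟨hf1, hf2⟩ := chord hlam hrs h1 hf
  obtain ⟨hg1, hg2⟩ := chord hlam hst h2 hg
  have hd1 := dist_bd_pos hlam hrs h1
  have hd2 := dist_bd_pos hlam hst h2
  set u := E ((lam * r + lam * s) / 2 + Real.pi / 2) with hu
  set v := E ((lam * s + lam * t) / 2 + Real.pi / 2) with hv
  set d := dist (bd lam r) (bd lam s) with hdd
  have hz : lam⁻¹ • E (lam * s) ≠ 0 := by
    rw [← norm_ne_zero_iff, norm_smul, norm_E, mul_one, norm_ne_zero_iff]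
    exact (inv_pos.2 hlam).ne'
  have hnu : ‖-u‖ = 1 := by rw [norm_neg, hu, norm_E]
  have hnv : ‖v‖ = 1 := by rw [hv, norm_E]
  have hA := hasAngle_regular hz hnu hnv
  have hB : HasAngle (fun u => f (d - u)) g (Real.arccos ⟪-u, v⟫) := by
    refine hA.congr hd1 hd2 ?_ ?_
    · intro x hx
      have hx2 : d - x ∈ Icc 0 d := ⟨by linarith [hx.2], by linarith [hx.1]⟩
      rw [hf2 _ hx2, hf1]
      congr 1
      module
    · intro x hx
      rw [hg2 _ hx]
  have h3 := hα.unique hB
  rw [h3, inner_neg_left, hu, hv, inner_E, Real.arccos_neg]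
  have h4 : (lam * r + lam * s) / 2 + Real.pi / 2 - ((lam * s + lam * t) / 2 + Real.pi / 2) = -(lam * (t - r) / 2) := by
    ring
  have h5 : lam * (t - r) = lam * (t - s) + lam * (s - r) := by ring
  rw [h4, Real.cos_neg, Real.arccos_cos (by rw [h5]; linarith) (by rw [h5]; linarith)]

lemma telescope (τ : ℕ → ℝ) (n : ℕ) :
    ∑ i ∈ Finset.range n, lam * (τ (i + 2) - τ i) / 2 = lam * ((τ (n + 1) + τ n) - (τ 1 + τ 0)) / 2 := by
  induction n with
  | zero => simp
  | succ n ih =>
    rw [Finset.sum_range_succ, ih]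
    ring

theorem hasSwerve_bd (s t : ℝ) : HasSwerve (bd lam) s t (lam * (t - s)) := by
  intro ε hε
  have hpi := Real.pi_pos
  refine ⟨min (Real.pi / (4 * lam)) (ε / lam), by positivity, ?_⟩
  intro n τ g α h0 hn hτ hg hα
  have hstep : ∀ i ≤ n, lam * (τ (i + 1) - τ i) < Real.pi / 4 ∧ lam * (τ (i + 1) - τ i) < ε := by
    intro i hi
    have h1 := (hτ i hi).2
    rw [lt_min_iff] at h1
    constructor
    · have := mul_lt_mul_of_pos_left h1.1 hlam
      have e : lam * (Real.pi / (4 * lam)) = Real.pi / 4 := by field_simp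
      rwa [e] at this
    · have := mul_lt_mul_of_pos_left h1.2 hlam
      have e : lam * (ε / lam) = ε := by field_simp
      rwa [e] at this
  have hangle : ∀ i ∈ Finset.range n, Real.pi - α i = lam * (τ (i + 2) - τ i) / 2 := by
    intro i hi
    rw [Finset.mem_range] at hi
    have h1 := chord_angle hlam (hτ i hi.le).1 (hτ (i + 1) hi).1 (hstep i hi.le).1.le (hstep (i + 1) hi).1.le
      (hg i hi.le) (hg (i + 1) hi) (hα i hi)
    rw [h1]
    ring_nf
  rw [Finset.sum_congr rfl hangle, telescope hlam, hn, h0]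
  have h1 := hstep 0 (Nat.zero_le n)
  have h2 := hstep n le_rfl
  have h3 := (hτ 0 (Nat.zero_le n)).1
  have h4 := (hτ n le_rfl).1
  rw [h0, zero_add] at h1 h3
  rw [hn] at h2 h4
  rw [abs_lt]
  constructor <;> nlinarith [mul_pos hlam (sub_pos.2 h3), mul_pos hlam (sub_pos.2 h4)]

theorem lambdaConvex_disk : LambdaConvex lam (disk lam) (Real.pi / lam) (bd lam) :=
  ⟨geodConvex_disk lam, fun s t _ _ => ⟨lam * (t - s), hasSwerve_bd hlam s t, le_rfl⟩⟩

end

end Pool.Agent.Lib.MP_4b815d_gt
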